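import Mathlib
import Pool.Agent.N555.RZ.Fix

set_option autoImplicit false

/-!
Riesz products over random subsets of an orthonormal system: the vectors
`∫ ∏ (1 + δ_l f_l(z)) w(z) dP(z)` are close to `s ∑ δ_l x_l`.
-/

namespace Pool.Agent.J4H21.CO

open Finset MeasureTheory
open Pool.Agent.N555.RZ

/-- Euclidean space -/
abbrev E (d : ℕ) : Type := EuclideanSpace ℝ (Fin d)

variable {d m N : ℕ} {Z : Type*} [MeasurableSpace Z] {P : Measure Z} [IsProbabilityMeasure P]

/-- orthogonality of signs -/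
theorem sum_sg (l k : Fin m) :
    ∑ δ : Fin m → Bool, sg (δ l) * sg (δ k) = if l = k then (2 : ℝ) ^ m else 0 := by
  have h0 := sum_prod (fun i b => (if i = l then sg b else 1) * (if i = k then sg b else 1))
  have h1 : ∀ δ : Fin m → Bool, ∏ i, ((if i = l then sg (δ i) else 1) *
      (if i = k then sg (δ i) else 1)) = sg (δ l) * sg (δ k) := by
    intro δ
    rw [Finset.prod_mul_distrib, Finset.prod_ite_eq', Finset.prod_ite_eq']
    simp
  simp only [h1] at h0
  rw [h0]
  split_ifs with h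
  · subst h
    calc _ = ∏ _i : Fin m, (2 : ℝ) := Finset.prod_congr rfl fun i _ => by
            by_cases hi : i = l
            · simp only [hi, if_true, sg, Bool.false_eq_true, if_false]
              norm_num
            · simp only [hi, if_false]
              norm_num
      _ = 2 ^ m := by simp
  · apply Finset.prod_eq_zero (Finset.mem_univ l)
    simp [h, sg]

theorem sum_sq_signs (x : Fin m → E d) :
    ∑ δ : Fin m → Bool, ‖∑ l, sg (δ l) • x l‖ ^ 2 = 2 ^ m * ∑ l, ‖x l‖ ^ 2 := by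
  have h1 : ∀ δ : Fin m → Bool, ‖∑ l, sg (δ l) • x l‖ ^ 2
      = ∑ l, ∑ k, sg (δ l) * sg (δ k) * inner ℝ (x l) (x k) := by
    intro δ
    rw [← real_inner_self_eq_norm_sq, sum_inner]
    refine Finset.sum_congr rfl fun l _ => ?_
    rw [inner_sum]
    refine Finset.sum_congr rfl fun k _ => ?_
    rw [real_inner_smul_left, inner_smul_right]
    ring
  simp only [h1]
  rw [Finset.sum_comm, Finset.mul_sum]
  refine Finset.sum_congr rfl fun l _ => ?_
  rw [Finset.sum_comm]
  have h2 : ∀ k, ∑ δ : Fin m → Bool, sg (δ l) * sg (δ k) * inner ℝ (x l) (x k)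
      = (if l = k then (2 : ℝ) ^ m else 0) * inner ℝ (x l) (x k) := by
    intro k
    rw [← Finset.sum_mul, sum_sg]
  simp only [h2]
  simp

/-- the norm of an integral -/
theorem norm_sq_integral (F : Z → E d) (hF : Measurable F) (C : ℝ) (hb : ∀ z, ‖F z‖ ≤ C) :
    ‖∫ z, F z ∂P‖ ^ 2 = ∫ q : Z × Z, inner ℝ (F q.1) (F q.2) ∂(P.prod P) := by
  have hFi : Integrable F P := Integrable.of_bound hF.aestronglyMeasurable C
    (Filter.Eventually.of_forall hb)
  have hQi : Integrable (fun q : Z × Z => inner ℝ (F q.1) (F q.2)) (P.prod P) := by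
    refine Integrable.of_bound ?_ (C * C) (Filter.Eventually.of_forall fun q => ?_)
    · exact ((hF.comp measurable_fst).inner (hF.comp measurable_snd)).aestronglyMeasurable
    · have h0 : 0 ≤ C := (norm_nonneg _).trans (hb q.1)
      exact (norm_inner_le_norm _ _).trans (mul_le_mul (hb _) (hb _) (norm_nonneg _) h0)
  rw [integral_prod _ hQi, ← real_inner_self_eq_norm_sq, ← integral_inner hFi]
  refine integral_congr_ae (Filter.Eventually.of_forall fun z => ?_)
  show inner ℝ (∫ z, F z ∂P) (F z) = _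
  rw [real_inner_comm, ← integral_inner hFi]

/-- the bilinear version -/
theorem sq_integral (g : Z → ℝ) :
    (∫ z, g z ∂P) ^ 2 = ∫ q : Z × Z, g q.1 * g q.2 ∂(P.prod P) := by
  rw [integral_prod_mul g g, sq]

/-- the vectors -/
noncomputable def Mv (P : Measure Z) (f : Fin N → Z → ℝ) (w : Z → E d) (I : Fin m → Fin N)
    (δ : Fin m → Bool) : E d :=
  ∫ z, R δ (fun l => f (I l) z) • w z ∂P

/-- the masses -/
noncomputable def Nv (P : Measure Z) (f : Fin N → Z → ℝ) (I : Fin m → Fin N)
    (δ : Fin m → Bool) : ℝ :=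
  ∫ z, R δ (fun l => f (I l) z) ∂P

/-- the signed sums -/
noncomputable def Tv (x : Fin N → E d) (s : ℝ) (I : Fin m → Fin N) (δ : Fin m → Bool) : E d :=
  s • ∑ l, sg (δ l) • x (I l)

section

variable {f : Fin N → Z → ℝ} {w : Z → E d} {x : Fin N → E d} {s W : ℝ}
  (hf : ∀ i, Measurable (f i)) (hf1 : ∀ i z, |f i z| ≤ 1) (hw : Measurable w)
  (hwb : ∀ z, ‖w z‖ ≤ W) (I : Fin m → Fin N)

include hf in
theorem meas_Rf (δ : Fin m → Bool) : Measurable fun z => R δ (fun l => f (I l) z) :=
  meas_R δ (x := fun z l => f (I l) z) fun l => hf _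

include hf hf1 hw hwb in
theorem sum_M : ∑ δ : Fin m → Bool, ‖Mv P f w I δ‖ ^ 2
    = 2 ^ m * ∫ q : Z × Z, inner ℝ (w q.1) (w q.2) * ∏ l, (1 + f (I l) q.1 * f (I l) q.2)
      ∂(P.prod P) := by
  have hRb : ∀ (δ : Fin m → Bool) z, |R δ (fun l => f (I l) z)| ≤ 2 ^ m := fun δ z =>
    R_le δ _ fun _ => hf1 _ _
  have h1 : ∀ δ : Fin m → Bool, ‖Mv P f w I δ‖ ^ 2
      = ∫ q : Z × Z, (R δ (fun l => f (I l) q.1) * R δ (fun l => f (I l) q.2))
        * inner ℝ (w q.1) (w q.2) ∂(P.prod P) := by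
    intro δ
    unfold Mv
    rw [norm_sq_integral (fun z => R δ (fun l => f (I l) z) • w z) ((meas_Rf hf I δ).smul hw)
      (2 ^ m * W) fun z => by
      rw [norm_smul, Real.norm_eq_abs]
      exact mul_le_mul (hRb δ z) (hwb z) (norm_nonneg _) (by positivity)]
    congr 1
    funext q
    rw [real_inner_smul_left, inner_smul_right]
    ring
  simp only [h1]
  rw [← integral_finsetSum]
  · rw [← integral_const_mul]
    congr 1
    funext q
    rw [← Finset.sum_mul, sum_RR]
    ring
  · intro δ _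
    have hm : Measurable fun q : Z × Z => (R δ (fun l => f (I l) q.1) *
        R δ (fun l => f (I l) q.2)) * inner ℝ (w q.1) (w q.2) :=
      (((meas_Rf hf I δ).comp measurable_fst).mul ((meas_Rf hf I δ).comp measurable_snd)).mul
        ((hw.comp measurable_fst).inner (hw.comp measurable_snd))
    refine intg _ hm (2 ^ m * 2 ^ m * (W * W)) fun q => ?_
    have hW : 0 ≤ W := (norm_nonneg _).trans (hwb q.1)
    rw [abs_mul, abs_mul]
    have h3 : |inner ℝ (w q.1) (w q.2)| ≤ W * W :=
      (abs_real_inner_le_norm _ _).trans (mul_le_mul (hwb _) (hwb _) (norm_nonneg _) hW)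
    have h4 := hRb δ q.1
    have h5 := hRb δ q.2
    gcongr

include hf hf1 in
theorem sum_Nv : ∑ δ : Fin m → Bool, Nv P f I δ ^ 2
    = 2 ^ m * ∫ q : Z × Z, ∏ l, (1 + f (I l) q.1 * f (I l) q.2) ∂(P.prod P) := by
  have hRb : ∀ (δ : Fin m → Bool) z, |R δ (fun l => f (I l) z)| ≤ 2 ^ m := fun δ z =>
    R_le δ _ fun l => hf1 _ _
  have h1 : ∀ δ : Fin m → Bool, Nv P f I δ ^ 2
      = ∫ q : Z × Z, R δ (fun l => f (I l) q.1) * R δ (fun l => f (I l) q.2) ∂(P.prod P) := by
    intro δ
    unfold Nv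
    rw [sq_integral]
  simp only [h1]
  rw [← integral_finsetSum]
  · rw [← integral_const_mul]
    congr 1
    funext q
    rw [sum_RR]
  · intro δ _
    have hm : Measurable fun q : Z × Z => R δ (fun l => f (I l) q.1) *
        R δ (fun l => f (I l) q.2) :=
      ((meas_Rf hf I δ).comp measurable_fst).mul ((meas_Rf hf I δ).comp measurable_snd)
    refine intg _ hm (2 ^ m * 2 ^ m) fun q => ?_
    rw [abs_mul]
    have h4 := hRb δ q.1
    have h5 := hRb δ q.2
    gcongr

include hf hf1 hw hwb in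
theorem sum_MT (hs : ∀ i z, s * inner ℝ (x i) (w z) = f i z) :
    ∑ δ : Fin m → Bool, inner ℝ (Mv P f w I δ) (Tv x s I δ)
      = 2 ^ m * ∑ l, ∫ z, f (I l) z ^ 2 ∂P := by
  have hRb : ∀ (δ : Fin m → Bool) z, |R δ (fun l => f (I l) z)| ≤ 2 ^ m := fun δ z =>
    R_le δ _ fun l => hf1 _ _
  have hRi : ∀ (δ : Fin m → Bool) l, Integrable
      (fun z => sg (δ l) * (R δ (fun l => f (I l) z) * f (I l) z)) P := by
    intro δ l
    refine intg P (((meas_Rf hf I δ).mul (hf _)).const_mul _) (2 ^ m) fun z => ?_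
    rw [abs_mul, abs_mul, sg_abs, one_mul]
    calc |R δ (fun l => f (I l) z)| * |f (I l) z| ≤ 2 ^ m * 1 := by
          have h4 := hRb δ z
          have h5 := hf1 (I l) z
          gcongr
      _ = 2 ^ m := mul_one _
  have h1 : ∀ δ : Fin m → Bool, inner ℝ (Mv P f w I δ) (Tv x s I δ)
      = ∑ l, ∫ z, sg (δ l) * (R δ (fun l => f (I l) z) * f (I l) z) ∂P := by
    intro δ
    unfold Mv Tv
    have hFi : Integrable (fun z => R δ (fun l => f (I l) z) • w z) P :=
      Integrable.of_bound ((meas_Rf hf I δ).smul hw).aestronglyMeasurable (2 ^ m * W)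
        (Filter.Eventually.of_forall fun z => by
          rw [norm_smul, Real.norm_eq_abs]
          exact mul_le_mul (hRb δ z) (hwb z) (norm_nonneg _) (by positivity))
    rw [real_inner_comm, ← integral_inner hFi, ← integral_finsetSum _ fun l _ => hRi δ l]
    congr 1
    funext z
    rw [inner_smul_right, real_inner_smul_left, sum_inner, Finset.mul_sum, Finset.mul_sum]
    refine Finset.sum_congr rfl fun l _ => ?_
    rw [real_inner_smul_left, ← hs (I l) z]
    ring
  simp only [h1]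
  rw [Finset.sum_comm, Finset.mul_sum]
  refine Finset.sum_congr rfl fun l _ => ?_
  rw [← integral_finsetSum _ fun δ _ => hRi δ l, ← integral_const_mul]
  congr 1
  funext z
  have h2 := sum_sgR (fun l => f (I l) z) l
  have h3 : ∀ δ : Fin m → Bool, sg (δ l) * (R δ (fun l => f (I l) z) * f (I l) z)
      = (sg (δ l) * R δ (fun l => f (I l) z)) * f (I l) z := fun δ => by ring
  simp only [h3]
  rw [← Finset.sum_mul, h2]
  ring

theorem sum_T (hx : ∀ i, ‖x i‖ = 1) :
    ∑ δ : Fin m → Bool, ‖Tv x s I δ‖ ^ 2 = 2 ^ m * (s ^ 2 * m) := by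
  have h1 : ∀ δ : Fin m → Bool, ‖Tv x s I δ‖ ^ 2
      = s ^ 2 * ‖∑ l, sg (δ l) • x (I l)‖ ^ 2 := by
    intro δ
    unfold Tv
    rw [norm_smul, mul_pow, Real.norm_eq_abs, sq_abs]
  simp only [h1]
  rw [← Finset.mul_sum, sum_sq_signs (fun l => x (I l))]
  simp only [hx, one_pow, Finset.sum_const, Finset.card_univ, Fintype.card_fin, nsmul_eq_mul,
    mul_one]
  ring

end

/-- sums over the choices -/
theorem sum_choice (g : Fin N → ℝ) (l : Fin m) :
    (N : ℝ) * ∑ I : Fin m → Fin N, g (I l) = (N : ℝ) ^ m * ∑ i, g i := by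
  have h0 : ∏ k : Fin m, ∑ i : Fin N, (if k = l then g i else 1)
      = ∑ I : Fin m → Fin N, ∏ k, (if k = l then g (I k) else 1) := by
    have h := Finset.prod_univ_sum (fun _ : Fin m => (Finset.univ : Finset (Fin N)))
      (fun k i => if k = l then g i else 1)
    rw [Fintype.piFinset_univ] at h
    exact h
  have h1 : ∀ I : Fin m → Fin N, ∏ k, (if k = l then g (I k) else 1) = g (I l) := by
    intro I
    rw [Finset.prod_ite_eq']
    simp
  simp only [h1] at h0
  rw [← h0, ← Finset.mul_prod_erase Finset.univ _ (Finset.mem_univ l)]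
  simp only [if_true]
  have h2 : ∏ k ∈ (Finset.univ : Finset (Fin m)).erase l, ∑ i : Fin N,
      (if k = l then g i else 1) = (N : ℝ) ^ (m - 1) := by
    calc _ = ∏ k ∈ (Finset.univ : Finset (Fin m)).erase l, (N : ℝ) := by
          refine Finset.prod_congr rfl fun k hk => ?_
          have : k ≠ l := (Finset.mem_erase.mp hk).1
          simp [this]
      _ = _ := by
        rw [Finset.prod_const, Finset.card_erase_of_mem (Finset.mem_univ l)]
        simp
  rw [h2]
  have h3 : (N : ℝ) ^ m = N * (N : ℝ) ^ (m - 1) := by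
    rw [← pow_succ']
    congr 1
    have := l.pos
    omega
  rw [h3]
  ring

/-- sums over the choices of a product -/
theorem sum_prod_choice (g : Fin N → ℝ) :
    ∑ I : Fin m → Fin N, ∏ l, g (I l) = (∑ i, g i) ^ m := by
  rw [Fintype.sum_pow]

/-- the kernel -/
noncomputable def kap (f : Fin N → Z → ℝ) (q : Z × Z) : ℝ := (∑ i, f i q.1 * f i q.2) / N

/-- the remainder -/
def rmd (m : ℕ) (k : ℝ) : ℝ := (1 + k) ^ m - 1 - m * k

theorem rmd_abs (m : ℕ) (k : ℝ) : |rmd m k| ≤ (m * |k|) ^ 2 / 2 * Real.exp (m * |k|) := by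
  have h1 : |rmd m k| ≤ (m * |k|) ^ 2 / 2 * (1 + |k|) ^ m := by
    induction m with
    | zero => simp [rmd]
    | succ m ih =>
      have e1 : rmd (m + 1) k = (1 + k) * rmd m k + m * k ^ 2 := by
        unfold rmd
        push_cast
        ring
      have h2 : |1 + k| ≤ 1 + |k| := by
        refine (abs_add_le _ _).trans ?_
        simp
      have h3 : 1 ≤ (1 + |k|) ^ (m + 1) := one_le_pow₀ (by linarith [abs_nonneg k])
      have h4 : 0 ≤ |k| := abs_nonneg k
      rw [e1]
      calc |(1 + k) * rmd m k + m * k ^ 2| ≤ |1 + k| * |rmd m k| + m * |k| ^ 2 := by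
            refine (abs_add_le _ _).trans ?_
            rw [abs_mul, abs_mul, abs_pow, Nat.abs_cast]
        _ ≤ (1 + |k|) * ((m * |k|) ^ 2 / 2 * (1 + |k|) ^ m) + m * |k| ^ 2 * 1 := by
            rw [mul_one]
            gcongr
        _ ≤ (1 + |k|) * ((m * |k|) ^ 2 / 2 * (1 + |k|) ^ m) + m * |k| ^ 2 * (1 + |k|) ^ (m + 1) := by
            gcongr
        _ ≤ _ := by
            push_cast
            have e2 : (1 + |k|) ^ (m + 1) = (1 + |k|) ^ m * (1 + |k|) := pow_succ _ _
            have h5 : 0 ≤ |k| ^ 2 * ((1 + |k|) ^ m * (1 + |k|)) := by positivity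
            rw [e2]
            set F := (1 + |k|) ^ m with hF
            have e3 : ((m : ℝ) + 1) ^ 2 * |k| ^ 2 / 2 * (F * (1 + |k|))
                - ((1 + |k|) * ((m * |k|) ^ 2 / 2 * F) + m * |k| ^ 2 * (F * (1 + |k|)))
                = |k| ^ 2 * (F * (1 + |k|)) / 2 := by ring
            have e4 : (((m : ℝ) + 1) * |k|) ^ 2 = ((m : ℝ) + 1) ^ 2 * |k| ^ 2 := by ring
            rw [e4]
            linarith
  refine h1.trans ?_
  have h2 : (1 + |k|) ^ m ≤ Real.exp (m * |k|) := by
    rw [Real.exp_nat_mul]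
    gcongr
    linarith [Real.add_one_le_exp |k|]
  gcongr

theorem kap_abs {f : Fin N → Z → ℝ} (hf1 : ∀ i z, |f i z| ≤ 1) (q : Z × Z) : |kap f q| ≤ 1 := by
  unfold kap
  rw [abs_div, Nat.abs_cast]
  rcases Nat.eq_zero_or_pos N with hN | hN
  · subst hN
    simp
  rw [div_le_one (by exact_mod_cast hN)]
  refine (Finset.abs_sum_le_sum_abs _ _).trans ?_
  calc ∑ i, |f i q.1 * f i q.2| ≤ ∑ _i : Fin N, (1 : ℝ) := by
        refine Finset.sum_le_sum fun i _ => ?_
        rw [abs_mul]
        exact mul_le_one₀ (hf1 _ _) (abs_nonneg _) (hf1 _ _)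
    _ = N := by simp

theorem meas_kap {f : Fin N → Z → ℝ} (hf : ∀ i, Measurable (f i)) : Measurable (kap f) := by
  unfold kap
  refine Measurable.div_const (Finset.measurable_sum _ fun i _ => ?_) _
  exact ((hf i).comp measurable_fst).mul ((hf i).comp measurable_snd)

theorem rmd_bdd (m : ℕ) (k : ℝ) (hk : |k| ≤ 1) : |rmd m k| ≤ (m : ℝ) ^ 2 / 2 * Real.exp m := by
  refine (rmd_abs m k).trans ?_
  have h1 : (m : ℝ) * |k| ≤ m := by
    have : (0 : ℝ) ≤ m := Nat.cast_nonneg m
    nlinarith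
  gcongr

/-- the total square -/
theorem total {f : Fin N → Z → ℝ} {w : Z → E d} {x : Fin N → E d} {s W : ℝ}
    (hN : 0 < N) (hf : ∀ i, Measurable (f i)) (hf1 : ∀ i z, |f i z| ≤ 1) (hw : Measurable w)
    (hwb : ∀ z, ‖w z‖ ≤ W) (hx : ∀ i, ‖x i‖ = 1) (hs : ∀ i z, s * inner ℝ (x i) (w z) = f i z)
    (hs0 : 0 ≤ s) (hmean : ∫ z, w z ∂P = 0)
    (hcov : ∀ u : E d, ∫ z, (inner ℝ u (w z)) ^ 2 ∂P ≤ ‖u‖ ^ 2)
    (ε ρ : ℝ) (hsec : N * (s ^ 2 - ε) ≤ ∑ i, ∫ z, f i z ^ 2 ∂P)
    (hρ : ∫ q : Z × Z, (|inner ℝ (w q.1) (w q.2)| + 1) * |rmd m (kap f q)| ∂(P.prod P) ≤ ρ) :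
    ∑ I : Fin m → Fin N, ∑ δ : Fin m → Bool, (‖Mv P f w I δ - Tv x s I δ‖ ^ 2 + Nv P f I δ ^ 2)
      ≤ 2 ^ m * (N : ℝ) ^ m * (1 + ρ + 2 * m * ε) := by
  set Q := P.prod P with hQ
  have hN' : (0 : ℝ) < N := by exact_mod_cast hN
  have hNne : (N : ℝ) ≠ 0 := hN'.ne'
  have hm1 : Measurable fun q : Z × Z => inner ℝ (w q.1) (w q.2) :=
    (hw.comp measurable_fst).inner (hw.comp measurable_snd)
  have hWW : ∀ q : Z × Z, |inner ℝ (w q.1) (w q.2)| ≤ W * W := fun q =>
    (abs_real_inner_le_norm _ _).trans (mul_le_mul (hwb _) (hwb _) (norm_nonneg _)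
      ((norm_nonneg _).trans (hwb q.1)))
  have hkm := meas_kap hf
  have hk1 := kap_abs hf1
  -- one choice
  have hone : ∀ I : Fin m → Fin N,
      ∑ δ : Fin m → Bool, (‖Mv P f w I δ - Tv x s I δ‖ ^ 2 + Nv P f I δ ^ 2)
      = 2 ^ m * ((∫ q, (inner ℝ (w q.1) (w q.2) + 1) * ∏ l, (1 + f (I l) q.1 * f (I l) q.2) ∂Q)
        - 2 * ∑ l, (∫ z, f (I l) z ^ 2 ∂P) + s ^ 2 * m) := by
    intro I
    have e1 : ∀ δ : Fin m → Bool, ‖Mv P f w I δ - Tv x s I δ‖ ^ 2 + Nv P f I δ ^ 2
        = ‖Mv P f w I δ‖ ^ 2 - 2 * inner ℝ (Mv P f w I δ) (Tv x s I δ) + ‖Tv x s I δ‖ ^ 2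
          + Nv P f I δ ^ 2 := by
      intro δ
      rw [norm_sub_sq_real]
    simp only [e1]
    rw [Finset.sum_add_distrib, Finset.sum_add_distrib, Finset.sum_sub_distrib, ← Finset.mul_sum,
      sum_M hf hf1 hw hwb I, sum_MT hf hf1 hw hwb I hs, sum_T I hx, sum_Nv hf hf1 I]
    have hpm : Measurable fun q : Z × Z => ∏ l, (1 + f (I l) q.1 * f (I l) q.2) := by
      refine Finset.measurable_prod _ fun l _ => ?_
      exact (((hf _).comp measurable_fst).mul ((hf _).comp measurable_snd)).const_add _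
    have hpb : ∀ q : Z × Z, |∏ l, (1 + f (I l) q.1 * f (I l) q.2)| ≤ 2 ^ m := fun q =>
      prod_bound (fun l => f (I l) q.1) (fun l => f (I l) q.2) (fun l => hf1 _ _)
        fun l => hf1 _ _
    have e2 : ∫ q, (inner ℝ (w q.1) (w q.2) + 1) * ∏ l, (1 + f (I l) q.1 * f (I l) q.2) ∂Q
        = (∫ q, inner ℝ (w q.1) (w q.2) * ∏ l, (1 + f (I l) q.1 * f (I l) q.2) ∂Q)
          + ∫ q, ∏ l, (1 + f (I l) q.1 * f (I l) q.2) ∂Q := by
      rw [← integral_add]
      · congr 1
        funext q
        ring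
      · refine intg _ (hm1.mul hpm) (W * W * 2 ^ m) fun q => ?_
        rw [abs_mul]
        have h3 := hWW q
        have h4 := hpb q
        have h5 : 0 ≤ W * W := mul_self_nonneg W
        gcongr
      · exact intg _ hpm (2 ^ m) hpb
    rw [e2]
    ring
  simp only [hone]
  rw [← Finset.mul_sum, Finset.sum_add_distrib, Finset.sum_sub_distrib]
  -- the product
  have hprod : ∑ I : Fin m → Fin N, ∫ q, (inner ℝ (w q.1) (w q.2) + 1) *
      ∏ l, (1 + f (I l) q.1 * f (I l) q.2) ∂Q
      = (N : ℝ) ^ m * ∫ q, (inner ℝ (w q.1) (w q.2) + 1) * (1 + kap f q) ^ m ∂Q := by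
    rw [← integral_finsetSum]
    · rw [← integral_const_mul]
      congr 1
      funext q
      rw [← Finset.mul_sum, sum_prod_choice (fun i => 1 + f i q.1 * f i q.2),
        Finset.sum_add_distrib]
      have e3 : ∑ _i : Fin N, (1 : ℝ) + ∑ i, f i q.1 * f i q.2 = N * (1 + kap f q) := by
        unfold kap
        simp only [Finset.sum_const, Finset.card_univ, Fintype.card_fin, nsmul_eq_mul, mul_one]
        field_simp
      rw [e3, mul_pow]
      ring
    · intro I _
      have hpm : Measurable fun q : Z × Z => ∏ l, (1 + f (I l) q.1 * f (I l) q.2) := by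
        refine Finset.measurable_prod _ fun l _ => ?_
        exact (((hf _).comp measurable_fst).mul ((hf _).comp measurable_snd)).const_add _
      have hpb : ∀ q : Z × Z, |∏ l, (1 + f (I l) q.1 * f (I l) q.2)| ≤ 2 ^ m := fun q =>
        prod_bound (fun l => f (I l) q.1) (fun l => f (I l) q.2) (fun l => hf1 _ _)
          fun l => hf1 _ _
      refine intg _ ((hm1.add_const 1).mul hpm) ((W * W + 1) * 2 ^ m) fun q => ?_
      rw [abs_mul]
      have h3 : |inner ℝ (w q.1) (w q.2) + 1| ≤ W * W + 1 := by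
        refine (abs_add_le _ _).trans ?_
        rw [abs_one]
        linarith [hWW q]
      have h4 := hpb q
      have h5 : 0 ≤ W * W := mul_self_nonneg W
      gcongr
  -- the squares
  have hsq : ∑ I : Fin m → Fin N, 2 * ∑ l, (∫ z, f (I l) z ^ 2 ∂P)
      = 2 * (m * ((N : ℝ) ^ m * ((∑ i, ∫ z, f i z ^ 2 ∂P) / N))) := by
    rw [← Finset.mul_sum, Finset.sum_comm]
    congr 1
    have e4 : ∀ l : Fin m, ∑ I : Fin m → Fin N, ∫ z, f (I l) z ^ 2 ∂P
        = (N : ℝ) ^ m * ((∑ i, ∫ z, f i z ^ 2 ∂P) / N) := by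
      intro l
      have := sum_choice (fun i => ∫ z, f i z ^ 2 ∂P) l
      field_simp
      linarith
    simp only [e4]
    simp
  rw [hprod, hsq]
  -- the expansion
  have hfm : ∀ i, ‖∫ z, f i z • w z ∂P‖ ≤ s := by
    intro i
    set v := ∫ z, f i z • w z ∂P with hv
    rcases eq_or_ne v 0 with h0 | h0
    · rw [h0, norm_zero]
      exact hs0
    have hvn : 0 < ‖v‖ := norm_pos_iff.2 h0
    have hFi : Integrable (fun z => f i z • w z) P :=
      Integrable.of_bound ((hf i).smul hw).aestronglyMeasurable (1 * W)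
        (Filter.Eventually.of_forall fun z => by
          rw [norm_smul, Real.norm_eq_abs]
          exact mul_le_mul (hf1 i z) (hwb z) (norm_nonneg _) zero_le_one)
    have hsqm : ∀ u : E d, Integrable (fun z => (inner ℝ u (w z)) ^ 2) P := fun u =>
      intg P ((measurable_const.inner hw).pow_const 2) ((‖u‖ * W) ^ 2) fun z => by
        rw [abs_pow]
        have : |inner ℝ u (w z)| ≤ ‖u‖ * W :=
          (abs_real_inner_le_norm _ _).trans (mul_le_mul_of_nonneg_left (hwb z) (norm_nonneg _))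
        exact pow_le_pow_left₀ (abs_nonneg _) this 2
    have h5 : ‖v‖ ^ 2 = ∫ z, inner ℝ v (f i z • w z) ∂P := by
      rw [integral_inner hFi, ← hv, real_inner_self_eq_norm_sq]
    have h6 : ∫ z, inner ℝ v (f i z • w z) ∂P
        ≤ ∫ z, (s * ‖v‖ / 2 * (inner ℝ (x i) (w z)) ^ 2
          + s / (2 * ‖v‖) * (inner ℝ v (w z)) ^ 2) ∂P := by
      refine integral_mono (hFi.const_inner v) (((hsqm _).const_mul _).add
        ((hsqm _).const_mul _)) fun z => ?_
      show inner ℝ v (f i z • w z) ≤ _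
      rw [inner_smul_right, ← hs i z]
      set a := inner ℝ (x i) (w z) with ha
      set b := inner ℝ v (w z) with hb
      have h7 : 0 ≤ s / (2 * ‖v‖) * (‖v‖ * a - b) ^ 2 := by positivity
      have h8 : s / (2 * ‖v‖) * (‖v‖ * a - b) ^ 2
          = s * ‖v‖ / 2 * a ^ 2 + s / (2 * ‖v‖) * b ^ 2 - s * a * b := by
        field_simp
        ring
      linarith
    rw [integral_add ((hsqm _).const_mul _) ((hsqm _).const_mul _), integral_const_mul,
      integral_const_mul] at h6
    have h7 := hcov (x i)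
    have h8 := hcov v
    rw [hx i] at h7
    have h9 : ‖v‖ ^ 2 ≤ s * ‖v‖ := by
      calc ‖v‖ ^ 2 ≤ s * ‖v‖ / 2 * ∫ z, (inner ℝ (x i) (w z)) ^ 2 ∂P
            + s / (2 * ‖v‖) * ∫ z, (inner ℝ v (w z)) ^ 2 ∂P := by rw [h5]; exact h6
        _ ≤ s * ‖v‖ / 2 * 1 ^ 2 + s / (2 * ‖v‖) * ‖v‖ ^ 2 := by gcongr
        _ = s * ‖v‖ := by
            field_simp
            ring
    nlinarith
  have hexp : ∫ q, (inner ℝ (w q.1) (w q.2) + 1) * (1 + kap f q) ^ m ∂Q ≤ 1 + m * s ^ 2 + ρ := by
    have hi1 : Integrable (fun q : Z × Z => inner ℝ (w q.1) (w q.2)) Q := intg _ hm1 _ hWW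
    have hi2 : Integrable (fun q : Z × Z => inner ℝ (w q.1) (w q.2) * kap f q) Q :=
      intg _ (hm1.mul hkm) (W * W * 1) fun q => by
        rw [abs_mul]
        have h3 := hWW q
        have h4 := hk1 q
        have h5 : 0 ≤ W * W := mul_self_nonneg W
        gcongr
    have hi3 : Integrable (kap f) Q := intg _ hkm 1 hk1
    have hi4 : Integrable (fun q : Z × Z => (|inner ℝ (w q.1) (w q.2)| + 1) *
        |rmd m (kap f q)|) Q := by
      have hrm : Measurable fun q : Z × Z => rmd m (kap f q) := by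
        unfold rmd
        exact (((hkm.const_add 1).pow_const m).sub_const 1).sub (hkm.const_mul _)
      refine intg _ ((hm1.abs.add_const 1).mul hrm.abs)
        ((W * W + 1) * ((m : ℝ) ^ 2 / 2 * Real.exp m)) fun q => ?_
      rw [abs_mul, abs_abs]
      have h3 : |(|inner ℝ (w q.1) (w q.2)| + 1)| ≤ W * W + 1 := by
        rw [abs_of_nonneg (by positivity)]
        linarith [hWW q]
      have h4 := rmd_bdd m _ (hk1 q)
      have h5 : 0 ≤ W * W := mul_self_nonneg W
      gcongr
    have j1 : ∫ q, inner ℝ (w q.1) (w q.2) ∂Q = 0 := by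
      rw [← norm_sq_integral w hw W hwb, hmean]
      simp
    have j2 : ∫ q, inner ℝ (w q.1) (w q.2) * kap f q ∂Q ≤ s ^ 2 := by
      have e5 : ∀ q : Z × Z, inner ℝ (w q.1) (w q.2) * kap f q
          = (∑ i, inner ℝ (f i q.1 • w q.1) (f i q.2 • w q.2)) / N := by
        intro q
        unfold kap
        rw [← mul_div_assoc, Finset.mul_sum]
        congr 1
        refine Finset.sum_congr rfl fun i _ => ?_
        rw [real_inner_smul_left, inner_smul_right]
        ring
      simp only [e5]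
      rw [integral_div, integral_finsetSum, div_le_iff₀ hN']
      · calc ∑ i, ∫ q, inner ℝ (f i q.1 • w q.1) (f i q.2 • w q.2) ∂Q
            = ∑ i, ‖∫ z, f i z • w z ∂P‖ ^ 2 := by
              refine Finset.sum_congr rfl fun i _ => ?_
              rw [norm_sq_integral (fun z => f i z • w z) ((hf i).smul hw) (1 * W)]
              intro z
              rw [norm_smul, Real.norm_eq_abs]
              exact mul_le_mul (hf1 i z) (hwb z) (norm_nonneg _) zero_le_one
          _ ≤ ∑ _i : Fin N, s ^ 2 := by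
              refine Finset.sum_le_sum fun i _ => ?_
              exact pow_le_pow_left₀ (norm_nonneg _) (hfm i) 2
          _ = s ^ 2 * N := by
              simp
              ring
      · intro i _
        refine intg _ ((((hf i).smul hw).comp measurable_fst).inner
          (((hf i).smul hw).comp measurable_snd)) (W * W) fun q => ?_
        show |inner ℝ (f i q.1 • w q.1) (f i q.2 • w q.2)| ≤ W * W
        rw [real_inner_smul_left, inner_smul_right, abs_mul, abs_mul]
        have h3 := hWW q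
        have h4 := hf1 i q.1
        have h5 := hf1 i q.2
        calc |f i q.1| * (|f i q.2| * |inner ℝ (w q.1) (w q.2)|) ≤ 1 * (1 * (W * W)) := by
              gcongr
          _ = W * W := by ring
    have j3 : ∫ q, kap f q ∂Q = 0 := by
      unfold kap
      rw [integral_div, integral_finsetSum]
      · have : ∀ i, ∫ q : Z × Z, f i q.1 * f i q.2 ∂Q = 0 := by
          intro i
          rw [← sq_integral]
          have e6 : ∫ z, f i z ∂P = 0 := by
            have hwi : Integrable w P := Integrable.of_bound hw.aestronglyMeasurable W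
              (Filter.Eventually.of_forall hwb)
            have : ∀ z, f i z = s * inner ℝ (x i) (w z) := fun z => (hs i z).symm
            simp only [this]
            rw [integral_const_mul, integral_inner hwi, hmean, inner_zero_right, mul_zero]
          rw [e6]
          norm_num
        simp only [this]
        simp
      · intro i _
        refine intg _ (((hf i).comp measurable_fst).mul ((hf i).comp measurable_snd)) 1
          fun q => ?_
        rw [abs_mul]
        exact mul_le_one₀ (hf1 _ _) (abs_nonneg _) (hf1 _ _)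
    have hpt : ∀ q : Z × Z, (inner ℝ (w q.1) (w q.2) + 1) * (1 + kap f q) ^ m
        ≤ (inner ℝ (w q.1) (w q.2) + 1 + (m * (inner ℝ (w q.1) (w q.2) * kap f q) + m * kap f q))
          + (|inner ℝ (w q.1) (w q.2)| + 1) * |rmd m (kap f q)| := by
      intro q
      have e7 : (1 + kap f q) ^ m = 1 + m * kap f q + rmd m (kap f q) := by
        unfold rmd
        ring
      rw [e7]
      have h3 : (inner ℝ (w q.1) (w q.2) + 1) * rmd m (kap f q)
          ≤ (|inner ℝ (w q.1) (w q.2)| + 1) * |rmd m (kap f q)| := by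
        refine (le_abs_self _).trans ?_
        rw [abs_mul]
        gcongr
        refine (abs_add_le _ _).trans ?_
        rw [abs_one]
      linarith
    have hl : Integrable (fun q : Z × Z => (inner ℝ (w q.1) (w q.2) + 1) * (1 + kap f q) ^ m) Q := by
      refine intg _ ((hm1.add_const 1).mul ((hkm.const_add 1).pow_const m))
        ((W * W + 1) * 2 ^ m) fun q => ?_
      rw [abs_mul, abs_pow]
      have h3 : |inner ℝ (w q.1) (w q.2) + 1| ≤ W * W + 1 := by
        refine (abs_add_le _ _).trans ?_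
        rw [abs_one]
        linarith [hWW q]
      have h4 : |1 + kap f q| ≤ 2 := by
        refine (abs_add_le _ _).trans ?_
        rw [abs_one]
        linarith [hk1 q]
      have h5 : 0 ≤ W * W := mul_self_nonneg W
      gcongr
    have hr1 : Integrable (fun q : Z × Z => inner ℝ (w q.1) (w q.2) + 1) Q :=
      hi1.add (integrable_const _)
    have hr2 : Integrable (fun q : Z × Z => (m : ℝ) * (inner ℝ (w q.1) (w q.2) * kap f q)
        + m * kap f q) Q := (hi2.const_mul _).add (hi3.const_mul _)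
    have hr3 : Integrable (fun q : Z × Z => inner ℝ (w q.1) (w q.2) + 1 +
        ((m : ℝ) * (inner ℝ (w q.1) (w q.2) * kap f q) + m * kap f q)) Q := hr1.add hr2
    have hr4 : Integrable (fun q : Z × Z => (inner ℝ (w q.1) (w q.2) + 1 +
        ((m : ℝ) * (inner ℝ (w q.1) (w q.2) * kap f q) + m * kap f q))
        + (|inner ℝ (w q.1) (w q.2)| + 1) * |rmd m (kap f q)|) Q := hr3.add hi4
    refine (integral_mono hl hr4 hpt).trans ?_
    rw [integral_add hr3 hi4, integral_add hr1 hr2, integral_add hi1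
      (integrable_const _), integral_add (hi2.const_mul _) (hi3.const_mul _), integral_const_mul,
      integral_const_mul, j1, j3]
    simp only [integral_const, probReal_univ, smul_eq_mul, mul_one, mul_zero, add_zero, zero_add]
    have hm0 : (0 : ℝ) ≤ m := Nat.cast_nonneg m
    have := mul_le_mul_of_nonneg_left j2 hm0
    linarith
  have hNm : (0 : ℝ) < (N : ℝ) ^ m := by positivity
  have hm0 : (0 : ℝ) ≤ m := Nat.cast_nonneg m
  have hsec' : s ^ 2 - ε ≤ (∑ i, ∫ z, f i z ^ 2 ∂P) / N := by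
    rw [le_div_iff₀ hN']
    linarith
  have hconst : ∑ _I : Fin m → Fin N, s ^ 2 * (m : ℝ) = (N : ℝ) ^ m * (s ^ 2 * m) := by
    simp
  rw [hconst]
  calc 2 ^ m * ((N : ℝ) ^ m * (∫ q, (inner ℝ (w q.1) (w q.2) + 1) * (1 + kap f q) ^ m ∂Q)
        - 2 * (m * ((N : ℝ) ^ m * ((∑ i, ∫ z, f i z ^ 2 ∂P) / N))) + (N : ℝ) ^ m * (s ^ 2 * m))
      ≤ 2 ^ m * ((N : ℝ) ^ m * (1 + m * s ^ 2 + ρ)
        - 2 * (m * ((N : ℝ) ^ m * (s ^ 2 - ε))) + (N : ℝ) ^ m * (s ^ 2 * m)) := by
        gcongr
    _ = _ := by ring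

end Pool.Agent.J4H21.CO
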