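import Mathlib
import Pool.Agent.J4H21.CO.Riesz
import Pool.Agent.J4H21.FL.Mom

set_option autoImplicit false

/-!
Truncated linear functionals on a symmetric convex body in isotropic position.
-/

namespace Pool.Agent.J4H21.CO

open MeasureTheory Set Module
open scoped ENNReal NNReal
open Pool.Agent.H815R2.Flat Pool.Agent.J4H21.FL

variable {d N : ℕ}

/-- the uniform probability measure on the unit ball of `p` -/
noncomputable def pr (p : Seminorm ℝ (Eu d)) : Measure (Eu d) :=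
  (volume {y : Eu d | p y ≤ 1})⁻¹ • volume.restrict {y : Eu d | p y ≤ 1}

theorem pr_prob (p : Seminorm ℝ (Eu d)) (h0 : volume {y : Eu d | p y ≤ 1} ≠ 0)
    (hfin : volume {y : Eu d | p y ≤ 1} ≠ ⊤) : IsProbabilityMeasure (pr p) := by
  constructor
  rw [pr, Measure.smul_apply, Measure.restrict_apply_univ, smul_eq_mul]
  exact ENNReal.inv_mul_cancel h0 hfin

theorem pr_int (p : Seminorm ℝ (Eu d)) (h0 : volume {y : Eu d | p y ≤ 1} ≠ 0)
    (hcomp : IsCompact {y : Eu d | p y ≤ 1}) (F : Eu d → ℝ) (hF : Continuous F) :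
    Integrable F (pr p) :=
  (ContinuousOn.integrableOn_compact hcomp hF.continuousOn).smul_measure (ENNReal.inv_ne_top.2 h0)

theorem pr_le (p : Seminorm ℝ (Eu d)) (h0 : volume {y : Eu d | p y ≤ 1} ≠ 0)
    (hcomp : IsCompact {y : Eu d | p y ≤ 1}) (F : Eu d → ℝ) (hF : Continuous F)
    (hF0 : ∀ z, 0 ≤ F z) (c : ℝ) (hc : 0 ≤ c)
    (h : ∫⁻ z in {y : Eu d | p y ≤ 1}, ENNReal.ofReal (F z)
      ≤ ENNReal.ofReal c * volume {y : Eu d | p y ≤ 1}) : ∫ z, F z ∂(pr p) ≤ c := by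
  have hfin := (hcomp.measure_lt_top (μ := (volume : Measure (Eu d)))).ne
  rw [integral_eq_lintegral_of_nonneg_ae (Filter.Eventually.of_forall hF0)
    hF.aestronglyMeasurable]
  apply ENNReal.toReal_le_of_le_ofReal hc
  rw [pr, lintegral_smul_measure, smul_eq_mul]
  calc (volume {y : Eu d | p y ≤ 1})⁻¹ * ∫⁻ z in {y : Eu d | p y ≤ 1}, ENNReal.ofReal (F z)
      ≤ (volume {y : Eu d | p y ≤ 1})⁻¹ * (ENNReal.ofReal c * volume {y : Eu d | p y ≤ 1}) := by
        gcongr
    _ = ENNReal.ofReal c := by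
        rw [mul_comm (ENNReal.ofReal c), ← mul_assoc, ENNReal.inv_mul_cancel h0 hfin, one_mul]

theorem pr_second (p : Seminorm ℝ (Eu d)) (h0 : volume {y : Eu d | p y ≤ 1} ≠ 0)
    (hcomp : IsCompact {y : Eu d | p y ≤ 1}) (hiso : Iso p) (v : Eu d) :
    ∫ z, (inner ℝ v z) ^ 2 ∂(pr p) = ‖v‖ ^ 2 := by
  have hfin := (hcomp.measure_lt_top (μ := (volume : Measure (Eu d)))).ne
  rw [integral_eq_lintegral_of_nonneg_ae (Filter.Eventually.of_forall fun z => sq_nonneg _)
    (by fun_prop), pr, lintegral_smul_measure, smul_eq_mul, hiso v,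
    mul_comm (ENNReal.ofReal _), ← mul_assoc, ENNReal.inv_mul_cancel h0 hfin, one_mul,
    ENNReal.toReal_ofReal (sq_nonneg _)]

theorem pr_exp (p : Seminorm ℝ (Eu d)) (hcont : Continuous p)
    (h0 : volume {y : Eu d | p y ≤ 1} ≠ 0)
    (hcomp : IsCompact {y : Eu d | p y ≤ 1}) (hiso : Iso p) (v : Eu d) (β : ℝ) (hβ : 0 < β)
    (hv : ‖v‖ ≤ β) :
    ∫ z, Real.exp (Real.log 2 / (4 * β) * |inner ℝ v z|) ∂(pr p) ≤ 3 := by
  have hfin := (hcomp.measure_lt_top (μ := (volume : Measure (Eu d)))).ne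
  refine pr_le p h0 hcomp _ (by fun_prop) (fun z => (Real.exp_pos _).le) 3 (by norm_num) ?_
  have h1 := expMoment p hcont hfin (innerSL ℝ v) β hβ ((iso_first p hiso v).trans (by gcongr))
  refine (le_of_eq ?_).trans (h1.trans (le_of_eq ?_))
  · rfl
  · norm_num

/-- the truncation -/
def AA (p : Seminorm ℝ (Eu d)) (x : Fin N → Eu d) (L : ℝ) : Set (Eu d) :=
  {z | p z ≤ 1 ∧ ∀ i, |inner ℝ (x i) z| ≤ L}

/-- the truncated vector -/
noncomputable def ww (p : Seminorm ℝ (Eu d)) (x : Fin N → Eu d) (L : ℝ) : Eu d → Eu d :=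
  (AA p x L).indicator id

/-- the truncated functionals -/
noncomputable def ff (p : Seminorm ℝ (Eu d)) (x : Fin N → Eu d) (L : ℝ) (i : Fin N) (z : Eu d) : ℝ :=
  L⁻¹ * inner ℝ (x i) (ww p x L z)

section

variable (p : Seminorm ℝ (Eu d)) (hcont : Continuous p) (x : Fin N → Eu d) (L : ℝ)

include hcont in
theorem AA_meas : MeasurableSet (AA p x L) := by
  have h1 : AA p x L = {z | p z ≤ 1} ∩ ⋂ i, {z | |inner ℝ (x i) z| ≤ L} := by
    ext z
    simp [AA]
  rw [h1]
  refine (isClosed_le hcont continuous_const).measurableSet.inter (MeasurableSet.iInter fun i => ?_)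
  exact (isClosed_le (by fun_prop) continuous_const).measurableSet

include hcont in
theorem ww_meas : Measurable (ww p x L) := measurable_id.indicator (AA_meas p hcont x L)

include hcont in
theorem ff_meas (i : Fin N) : Measurable (ff p x L i) :=
  (measurable_const.inner (ww_meas p hcont x L)).const_mul _

theorem ww_cases (z : Eu d) : (z ∈ AA p x L ∧ ww p x L z = z) ∨ (z ∉ AA p x L ∧ ww p x L z = 0) := by
  by_cases hz : z ∈ AA p x L
  · exact Or.inl ⟨hz, indicator_of_mem hz _⟩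
  · exact Or.inr ⟨hz, indicator_of_notMem hz _⟩

theorem ww_neg (z : Eu d) : ww p x L (-z) = -ww p x L z := by
  have h1 : -z ∈ AA p x L ↔ z ∈ AA p x L := by
    simp only [AA, mem_ofPred_eq, map_neg_eq_map, inner_neg_right, abs_neg]
  rcases ww_cases p x L z with ⟨h, h'⟩ | ⟨h, h'⟩
  · rw [h', ww, indicator_of_mem (h1.2 h)]
    rfl
  · rw [h', ww, indicator_of_notMem (fun h2 => h (h1.1 h2)), neg_zero]

theorem ww_inner (z u : Eu d) : |inner ℝ u (ww p x L z)| ≤ |inner ℝ u z| := by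
  rcases ww_cases p x L z with ⟨_, h'⟩ | ⟨_, h'⟩
  · rw [h']
  · rw [h', inner_zero_right, abs_zero]
    exact abs_nonneg _

theorem ff_abs (hL : 0 < L) (i : Fin N) (z : Eu d) : |ff p x L i z| ≤ 1 := by
  unfold ff
  rw [abs_mul, abs_inv, abs_of_pos hL, inv_mul_le_iff₀ hL, mul_one]
  rcases ww_cases p x L z with ⟨h, h'⟩ | ⟨_, h'⟩
  · rw [h']
    exact h.2 i
  · rw [h', inner_zero_right, abs_zero]
    exact hL.le

theorem ww_bdd (hcomp : IsCompact {y : Eu d | p y ≤ 1}) : ∃ W : ℝ, ∀ z, ‖ww p x L z‖ ≤ W := by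
  obtain ⟨B, hB⟩ := hcomp.isBounded.subset_closedBall (0 : Eu d)
  refine ⟨max B 0, fun z => ?_⟩
  rcases ww_cases p x L z with ⟨h, h'⟩ | ⟨_, h'⟩
  · rw [h']
    have := hB h.1
    rw [mem_closedBall_zero_iff] at this
    exact this.trans (le_max_left _ _)
  · rw [h', norm_zero]
    exact le_max_right _ _

theorem ww_mean : ∫ z, ww p x L z ∂(pr p) = 0 := by
  have h1 : ∫ z in {y : Eu d | p y ≤ 1}, ww p x L z = ∫ z, ww p x L z := by
    apply setIntegral_eq_integral_of_forall_compl_eq_zero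
    intro z hz
    rcases ww_cases p x L z with ⟨h, _⟩ | ⟨_, h'⟩
    · exact absurd h.1 hz
    · exact h'
  have h2 : ∫ z, ww p x L z = 0 := by
    have h3 := integral_neg_eq_self (ww p x L) (volume : Measure (Eu d))
    simp only [ww_neg] at h3
    rw [integral_neg] at h3
    have h4 : (∫ z, ww p x L z) + ∫ z, ww p x L z = 0 := by
      nth_rewrite 1 [← h3]
      simp
    rw [← two_smul ℝ] at h4
    exact (smul_eq_zero.1 h4).resolve_left (by norm_num)
  rw [pr, integral_smul_measure, h1, h2, smul_zero]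

include hcont in
theorem ww_cov (h0 : volume {y : Eu d | p y ≤ 1} ≠ 0)
    (hcomp : IsCompact {y : Eu d | p y ≤ 1}) (hiso : Iso p) (u : Eu d) :
    ∫ z, (inner ℝ u (ww p x L z)) ^ 2 ∂(pr p) ≤ ‖u‖ ^ 2 := by
  rw [← pr_second p h0 hcomp hiso u]
  have h1 := pr_int p h0 hcomp (fun z => (inner ℝ u z) ^ 2) (by fun_prop)
  have hle : ∀ z, (inner ℝ u (ww p x L z)) ^ 2 ≤ (inner ℝ u z) ^ 2 := fun z =>
    sq_le_sq.2 (ww_inner p x L z u)
  refine integral_mono (h1.mono ((measurable_const.inner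
    (ww_meas p hcont x L)).pow_const 2).aestronglyMeasurable
    (Filter.Eventually.of_forall fun z => ?_)) h1 hle
  rw [Real.norm_of_nonneg (sq_nonneg _), Real.norm_of_nonneg (sq_nonneg _)]
  exact hle z

end

end Pool.Agent.J4H21.CO
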