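import Mathlib
import Pool.Agent.J4H21.CO.Conc
import Pool.Agent.J4H21.FL.Step

set_option autoImplicit false

/-!
The average over the choices, in isotropic position.
-/

namespace Pool.Agent.J4H21.CO

open MeasureTheory Set Module
open scoped ENNReal NNReal
open Pool.Agent.H815R2.Flat Pool.Agent.J4H21.FL
open Pool.Agent.N555.RZ (sg intg R_nonneg R_le R)

variable {d N m : ℕ}

theorem pow_four_exp (t B : ℝ) (ht : 0 ≤ t) (hB : 0 < B) :
    t ^ 4 ≤ 24 / B ^ 4 * Real.exp (B * t) := by
  have h1 := Real.pow_div_factorial_le_exp (B * t) (by positivity) 4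
  have h2 : ((Nat.factorial 4 : ℕ) : ℝ) = 24 := by norm_num [Nat.factorial]
  rw [h2, mul_pow, div_le_iff₀ (by norm_num)] at h1
  rw [div_mul_eq_mul_div, le_div_iff₀ (by positivity)]
  linarith

theorem pr_ae (p : Seminorm ℝ (Eu d)) (hcont : Continuous p) : ∀ᵐ z ∂(pr p), p z ≤ 1 := by
  refine Measure.ae_smul_measure ?_ _
  exact ae_restrict_mem (isClosed_le hcont continuous_const).measurableSet

section

variable (p : Seminorm ℝ (Eu d)) (hcont : Continuous p)
  (h0 : volume {y : Eu d | p y ≤ 1} ≠ 0) (hcomp : IsCompact {y : Eu d | p y ≤ 1})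
  (hiso : Iso p) (x : Fin N → Eu d) (hx : Orthonormal ℝ x) (L : ℝ) (hL : 0 < L)

/-- the kernel is a linear functional of the second variable -/
theorem kap_eq (q : Eu d × Eu d) : kap (ff p x L) q
    = (L⁻¹ * L⁻¹ / N) * inner ℝ (∑ i, inner ℝ (x i) (ww p x L q.1) • x i) (ww p x L q.2) := by
  unfold kap ff
  rw [sum_inner, Finset.mul_sum, Finset.sum_div]
  refine Finset.sum_congr rfl fun i _ => ?_
  rw [real_inner_smul_left]
  ring

include hx in
theorem vec_norm (z : Eu d) (hL : 0 < L) :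
    ‖∑ i, inner ℝ (x i) (ww p x L z) • x i‖ ≤ √N * L := by
  have h1 : ‖∑ i, inner ℝ (x i) (ww p x L z) • x i‖ ^ 2 ≤ (√N * L) ^ 2 := by
    rw [mul_pow, Real.sq_sqrt (Nat.cast_nonneg N), ← real_inner_self_eq_norm_sq,
      hx.inner_sum]
    calc ∑ i, (starRingEnd ℝ) (inner ℝ (x i) (ww p x L z)) * inner ℝ (x i) (ww p x L z)
        ≤ ∑ _i : Fin N, L ^ 2 := by
          refine Finset.sum_le_sum fun i _ => ?_
          have h2 : |inner ℝ (x i) (ww p x L z)| ≤ L := by
            have := ff_abs p x L hL i z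
            unfold ff at this
            rw [abs_mul, abs_inv, abs_of_pos hL, inv_mul_le_iff₀ hL, mul_one] at this
            exact this
          show inner ℝ (x i) (ww p x L z) * inner ℝ (x i) (ww p x L z) ≤ _
          rw [← sq, ← sq_abs]
          exact pow_le_pow_left₀ (abs_nonneg _) h2 2
      _ = N * L ^ 2 := by simp
  exact le_of_sq_le_sq h1 (by positivity)

include hcont h0 hcomp hiso hx hL in
theorem exp_kap (hN : 0 < N) (τ : ℝ) (hτ : 0 ≤ τ) (hcond : τ ≤ Real.log 2 / 4 * L * √N) :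
    ∫ q : Eu d × Eu d, Real.exp (τ * |kap (ff p x L) q|) ∂((pr p).prod (pr p)) ≤ 3 := by
  have hP := pr_prob p h0 hcomp.measure_lt_top.ne
  have hN' : (0 : ℝ) < N := by exact_mod_cast hN
  have hkm := meas_kap (f := ff p x L) fun i => ff_meas p hcont x L i
  have hi : Integrable (fun q : Eu d × Eu d => Real.exp (τ * |kap (ff p x L) q|))
      ((pr p).prod (pr p)) := by
    refine intg _ (Real.measurable_exp.comp (hkm.abs.const_mul _)) (Real.exp τ) fun q => ?_
    rw [abs_of_pos (Real.exp_pos _)]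
    apply Real.exp_le_exp.2
    have := kap_abs (ff_abs p x L hL) q
    nlinarith
  rw [integral_prod _ hi]
  have h1 : ∀ z : Eu d, ∫ z', Real.exp (τ * |kap (ff p x L) (z, z')|) ∂(pr p) ≤ 3 := by
    intro z
    set v := ∑ i, inner ℝ (x i) (ww p x L z) • x i with hv
    have hvn := vec_norm p x hx L z hL
    rw [← hv] at hvn
    have hβ : 0 < √N * L := by positivity
    have h2 := pr_exp p hcont h0 hcomp hiso v (√N * L) hβ hvn
    refine le_trans (integral_mono ?_ (pr_int p h0 hcomp _ (by fun_prop)) fun z' => ?_) h2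
    · refine intg _ (Real.measurable_exp.comp ((hkm.abs.const_mul _).comp
        (measurable_const.prodMk measurable_id))) (Real.exp τ) fun z' => ?_
      show |Real.exp (τ * |kap (ff p x L) (z, z')|)| ≤ _
      rw [abs_of_pos (Real.exp_pos _)]
      apply Real.exp_le_exp.2
      have := kap_abs (ff_abs p x L hL) (z, z')
      nlinarith
    · apply Real.exp_le_exp.2
      rw [kap_eq, abs_mul, ← hv]
      have h3 := ww_inner p x L z' v
      rw [abs_of_nonneg (show 0 ≤ L⁻¹ * L⁻¹ / (N : ℝ) by positivity), ← mul_assoc]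
      have h4 : τ * (L⁻¹ * L⁻¹ / (N : ℝ)) ≤ Real.log 2 / (4 * (√N * L)) := by
        have e1 : Real.log 2 / (4 * (√N * L)) = (Real.log 2 / 4 * L * √N) * (L⁻¹ * L⁻¹ / N) := by
          have hs : √(N : ℝ) * √N = N := Real.mul_self_sqrt hN'.le
          have hs0 : 0 < √(N : ℝ) := by positivity
          generalize √(N : ℝ) = σ at hs hs0
          rw [← hs]
          field_simp
        rw [e1]
        gcongr
      have h5 : 0 ≤ Real.log 2 / (4 * (√N * L)) := by
        have := Real.log_nonneg (show (1 : ℝ) ≤ 2 by norm_num)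
        positivity
      exact mul_le_mul h4 h3 (abs_nonneg _) h5
  calc ∫ z, ∫ z', Real.exp (τ * |kap (ff p x L) (z, z')|) ∂(pr p) ∂(pr p)
      ≤ ∫ _z, (3 : ℝ) ∂(pr p) := integral_mono hi.integral_prod_left (integrable_const _) h1
    _ = 3 := by simp

include hcont h0 hcomp hiso in
theorem inner_sq :
    ∫ q : Eu d × Eu d, (inner ℝ (ww p x L q.1) (ww p x L q.2)) ^ 2 ∂((pr p).prod (pr p)) ≤ d := by
  have hP := pr_prob p h0 hcomp.measure_lt_top.ne
  obtain ⟨W, hW⟩ := ww_bdd p x L hcomp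
  have hwm := ww_meas p hcont x L
  have hi : Integrable (fun q : Eu d × Eu d => (inner ℝ (ww p x L q.1) (ww p x L q.2)) ^ 2)
      ((pr p).prod (pr p)) := by
    refine intg _ (((hwm.comp measurable_fst).inner (hwm.comp measurable_snd)).pow_const 2)
      ((W * W) ^ 2) fun q => ?_
    rw [abs_pow]
    refine pow_le_pow_left₀ (abs_nonneg _) ?_ 2
    exact (abs_real_inner_le_norm _ _).trans (mul_le_mul (hW _) (hW _) (norm_nonneg _)
      ((norm_nonneg _).trans (hW q.1)))
  rw [integral_prod _ hi]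
  have hni : Integrable (fun z => ‖ww p x L z‖ ^ 2) (pr p) :=
    intg _ (hwm.norm.pow_const 2) (W ^ 2) fun z => by
      rw [abs_pow, abs_norm]
      exact pow_le_pow_left₀ (norm_nonneg _) (hW z) 2
  calc ∫ z, ∫ z', (inner ℝ (ww p x L z) (ww p x L z')) ^ 2 ∂(pr p) ∂(pr p)
      ≤ ∫ z, ‖ww p x L z‖ ^ 2 ∂(pr p) :=
        integral_mono hi.integral_prod_left hni fun z => ww_cov p hcont x L h0 hcomp hiso _
    _ = ∑ k : Fin d, ∫ z, (inner ℝ (EuclideanSpace.single k (1 : ℝ)) (ww p x L z)) ^ 2 ∂(pr p) := by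
        rw [← integral_finsetSum]
        · congr 1
          funext z
          rw [EuclideanSpace.norm_sq_eq]
          refine Finset.sum_congr rfl fun k _ => ?_
          rw [EuclideanSpace.inner_single_left]
          simp
        · intro k _
          refine intg _ ((measurable_const.inner hwm).pow_const 2) (W ^ 2) fun z => ?_
          rw [abs_pow]
          refine pow_le_pow_left₀ (abs_nonneg _) ?_ 2
          refine (abs_real_inner_le_norm _ _).trans ?_
          rw [PiLp.norm_single, norm_one, one_mul]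
          exact hW z
    _ ≤ ∑ _k : Fin d, (1 : ℝ) := by
        refine Finset.sum_le_sum fun k _ => ?_
        refine (ww_cov p hcont x L h0 hcomp hiso _).trans ?_
        rw [PiLp.norm_single, norm_one, one_pow]
    _ = d := by simp

include hcont h0 hcomp hiso hx hL in
theorem rho_bound (hd : 2 ≤ d) (hN : 0 < N) (B : ℝ) (hB0 : 0 < B) (hB : 180 * (d : ℝ) ≤ B ^ 4)
    (hcond : (B + 2) * m ≤ Real.log 2 / 4 * L * √N) :
    ∫ q : Eu d × Eu d, (|inner ℝ (ww p x L q.1) (ww p x L q.2)| + 1) *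
      |rmd m (kap (ff p x L) q)| ∂((pr p).prod (pr p)) ≤ 0.85 := by
  have hP := pr_prob p h0 hcomp.measure_lt_top.ne
  have hd' : (2 : ℝ) ≤ d := by exact_mod_cast hd
  obtain ⟨W, hW⟩ := ww_bdd p x L hcomp
  have hwm := ww_meas p hcont x L
  have hkm := meas_kap (f := ff p x L) fun i => ff_meas p hcont x L i
  have hk1 := kap_abs (ff_abs p x L hL)
  have hm0 : (0 : ℝ) ≤ m := Nat.cast_nonneg m
  have hm1 : Measurable fun q : Eu d × Eu d => inner ℝ (ww p x L q.1) (ww p x L q.2) :=
    (hwm.comp measurable_fst).inner (hwm.comp measurable_snd)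
  have hWW : ∀ q : Eu d × Eu d, |inner ℝ (ww p x L q.1) (ww p x L q.2)| ≤ W * W := fun q =>
    (abs_real_inner_le_norm _ _).trans (mul_le_mul (hW _) (hW _) (norm_nonneg _)
      ((norm_nonneg _).trans (hW q.1)))
  have hi1 : Integrable (fun q : Eu d × Eu d => (inner ℝ (ww p x L q.1) (ww p x L q.2)) ^ 2)
      ((pr p).prod (pr p)) := by
    refine intg _ (hm1.pow_const 2) ((W * W) ^ 2) fun q => ?_
    rw [abs_pow]
    exact pow_le_pow_left₀ (abs_nonneg _) (hWW q) 2
  have hi2 : Integrable (fun q : Eu d × Eu d => Real.exp (((B + 2) * m) * |kap (ff p x L) q|))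
      ((pr p).prod (pr p)) := by
    refine intg _ (Real.measurable_exp.comp (hkm.abs.const_mul _)) (Real.exp ((B + 2) * m))
      fun q => ?_
    rw [abs_of_pos (Real.exp_pos _)]
    apply Real.exp_le_exp.2
    have h1 := hk1 q
    have h2 : 0 ≤ (B + 2) * m := by positivity
    nlinarith
  have hi3 : Integrable (fun q : Eu d × Eu d => (|inner ℝ (ww p x L q.1) (ww p x L q.2)| + 1) *
      |rmd m (kap (ff p x L) q)|) ((pr p).prod (pr p)) := by
    have hrm : Measurable fun q : Eu d × Eu d => rmd m (kap (ff p x L) q) := by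
      unfold rmd
      exact (((hkm.const_add 1).pow_const m).sub_const 1).sub (hkm.const_mul _)
    refine intg _ ((hm1.abs.add_const 1).mul hrm.abs)
      ((W * W + 1) * ((m : ℝ) ^ 2 / 2 * Real.exp m)) fun q => ?_
    rw [abs_mul, abs_abs]
    have h3 : |(|inner ℝ (ww p x L q.1) (ww p x L q.2)| + 1)| ≤ W * W + 1 := by
      rw [abs_of_nonneg (by positivity)]
      linarith [hWW q]
    have h4 := rmd_bdd m _ (hk1 q)
    have h5 : 0 ≤ W * W := mul_self_nonneg W
    gcongr
  have hpt : ∀ q : Eu d × Eu d, (|inner ℝ (ww p x L q.1) (ww p x L q.2)| + 1) *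
      |rmd m (kap (ff p x L) q)|
      ≤ (1 / (2 * d) * (inner ℝ (ww p x L q.1) (ww p x L q.2)) ^ 2 + 1 / (2 * d))
        + d * (6 / B ^ 4) * Real.exp (((B + 2) * m) * |kap (ff p x L) q|) := by
    intro q
    set a := inner ℝ (ww p x L q.1) (ww p x L q.2) with ha
    set r := |rmd m (kap (ff p x L) q)| with hr
    set t : ℝ := m * |kap (ff p x L) q| with ht
    have ht0 : 0 ≤ t := by positivity
    have h1 : r ≤ t ^ 2 / 2 * Real.exp t := rmd_abs m _
    have h2 : (|a| + 1) * r ≤ 1 / (4 * d) * (|a| + 1) ^ 2 + d * r ^ 2 := by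
      have h3 : 0 ≤ 1 / (4 * (d : ℝ)) * (|a| + 1 - 2 * d * r) ^ 2 := by positivity
      have h4 : 1 / (4 * (d : ℝ)) * (|a| + 1 - 2 * d * r) ^ 2
          = 1 / (4 * d) * (|a| + 1) ^ 2 + d * r ^ 2 - (|a| + 1) * r := by
        field_simp
        ring
      linarith
    have h3 : (|a| + 1) ^ 2 ≤ 2 * (a ^ 2 + 1) := by
      rw [← sq_abs a]
      nlinarith [sq_nonneg (|a| - 1)]
    have h4 : r ^ 2 ≤ 6 / B ^ 4 * Real.exp (((B + 2) * m) * |kap (ff p x L) q|) := by
      have h5 : r ^ 2 ≤ (t ^ 2 / 2 * Real.exp t) ^ 2 := pow_le_pow_left₀ (abs_nonneg _) h1 2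
      have h6 : (t ^ 2 / 2 * Real.exp t) ^ 2 = t ^ 4 / 4 * (Real.exp t) ^ 2 := by ring
      have h7 := pow_four_exp t B ht0 hB0
      have h8 : (Real.exp t) ^ 2 = Real.exp (2 * t) := by
        rw [← Real.exp_nat_mul]
        norm_num
      have h9 : Real.exp (((B + 2) * m) * |kap (ff p x L) q|) = Real.exp (B * t) * Real.exp (2 * t) := by
        rw [← Real.exp_add, ht]
        congr 1
        ring
      rw [h9]
      calc r ^ 2 ≤ t ^ 4 / 4 * Real.exp (2 * t) := by rw [← h8, ← h6]; exact h5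
        _ ≤ (24 / B ^ 4 * Real.exp (B * t)) / 4 * Real.exp (2 * t) := by gcongr
        _ = _ := by ring
    calc (|a| + 1) * r ≤ 1 / (4 * d) * (|a| + 1) ^ 2 + d * r ^ 2 := h2
      _ ≤ 1 / (4 * d) * (2 * (a ^ 2 + 1)) + d * (6 / B ^ 4 *
          Real.exp (((B + 2) * m) * |kap (ff p x L) q|)) := by gcongr
      _ = _ := by
        field_simp
        ring
  have hexp := exp_kap p hcont h0 hcomp hiso x hx L hL hN ((B + 2) * m) (by positivity) hcond
  have hsq := inner_sq p hcont h0 hcomp hiso x L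
  have hiA : Integrable (fun q : Eu d × Eu d =>
      1 / (2 * (d : ℝ)) * (inner ℝ (ww p x L q.1) (ww p x L q.2)) ^ 2 + 1 / (2 * d))
      ((pr p).prod (pr p)) := (hi1.const_mul _).add (integrable_const _)
  refine (integral_mono hi3 (hiA.add (hi2.const_mul _)) hpt).trans ?_
  rw [integral_add' hiA (hi2.const_mul _), integral_add (hi1.const_mul _) (integrable_const _),
    integral_const_mul, integral_const_mul]
  simp only [integral_const, probReal_univ, smul_eq_mul, one_mul]
  have h5 : 0 < B ^ 4 := by positivity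
  calc 1 / (2 * (d : ℝ)) * (∫ q : Eu d × Eu d, (inner ℝ (ww p x L q.1) (ww p x L q.2)) ^ 2
        ∂((pr p).prod (pr p))) + 1 / (2 * d) + d * (6 / B ^ 4) *
        (∫ q : Eu d × Eu d, Real.exp (((B + 2) * m) * |kap (ff p x L) q|) ∂((pr p).prod (pr p)))
      ≤ 1 / (2 * (d : ℝ)) * d + 1 / (2 * d) + d * (6 / B ^ 4) * 3 := by gcongr
    _ ≤ 1 / 2 + 1 / 4 + 0.1 := by
        have e1 : 1 / (2 * (d : ℝ)) * d = 1 / 2 := by field_simp
        have e2 : 1 / (2 * (d : ℝ)) ≤ 1 / 4 := by
          apply one_div_le_one_div_of_le (by norm_num)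
          linarith
        have e3 : (d : ℝ) * (6 / B ^ 4) * 3 ≤ 0.1 := by
          have : (d : ℝ) * (6 / B ^ 4) * 3 = 18 * d / B ^ 4 := by ring
          rw [this, div_le_iff₀ h5]
          linarith
        linarith
    _ = 0.85 := by norm_num

end

end Pool.Agent.J4H21.CO
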