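import Mathlib
import Pool.Agent.J4H21.CO.Avg
import Pool.Agent.J4H21.SC.Greedy

set_option autoImplicit false

/-!
Vectors with small signed sums, in isotropic position.
-/

namespace Pool.Agent.J4H21.CO

open MeasureTheory Set Module
open scoped ENNReal NNReal
open Pool.Agent.H815R2.Flat Pool.Agent.J4H21.FL Pool.Agent.J4H21.SC
open Pool.Agent.N555.RZ (sg intg R_nonneg R_le R sg_abs)

variable {d N m : ℕ}

section

variable (p : Seminorm ℝ (Eu d)) (hcont : Continuous p)
  (h0 : volume {y : Eu d | p y ≤ 1} ≠ 0) (hcomp : IsCompact {y : Eu d | p y ≤ 1})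
  (hiso : Iso p) (x : Fin N → Eu d) (L : ℝ) (hL : 0 < L)

include hcont h0 hcomp hiso hL in
/-- the truncation loses little -/
theorem sec_bound (hx : ∀ i, ‖x i‖ = 1) (i : Fin N) (Λ : ℝ) (hΛ : 0 < Λ) :
    (L⁻¹) ^ 2 * (1 - (81000 / Λ + 3 * Λ * N * Real.exp (-(Real.log 2 / 4 * L))) / 2)
      ≤ ∫ z, ff p x L i z ^ 2 ∂(pr p) := by
  have hP := pr_prob p h0 hcomp.measure_lt_top.ne
  have hlog := Real.log_two_gt_d9
  set c : ℝ := Real.log 2 / 4 with hc
  have hc0 : 0.1732 < c := by rw [hc]; linarith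
  have hcpos : 0 < c := by linarith
  have hc4 : 24 / c ^ 4 ≤ 27000 := by
    have h1 : (0.1732 : ℝ) ^ 4 ≤ c ^ 4 := by gcongr
    rw [div_le_iff₀ (by positivity)]
    have h2 : (24 : ℝ) ≤ 27000 * 0.1732 ^ 4 := by norm_num
    linarith
  have hwm := ww_meas p hcont x L
  obtain ⟨W, hW⟩ := ww_bdd p x L hcomp
  have hei : ∀ j : Fin N, Integrable (fun z : Eu d => Real.exp (c * |inner ℝ (x j) z|)) (pr p) :=
    fun j => pr_int p h0 hcomp _ (by fun_prop)
  have hej : ∀ j : Fin N, ∫ z, Real.exp (c * |inner ℝ (x j) z|) ∂(pr p) ≤ 3 := by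
    intro j
    have h1 := pr_exp p hcont h0 hcomp hiso (x j) 1 one_pos (hx j).le
    rwa [mul_one] at h1
  have hwi : Integrable (fun z => (inner ℝ (x i) (ww p x L z)) ^ 2) (pr p) := by
    refine intg _ ((measurable_const.inner hwm).pow_const 2) (W ^ 2) fun z => ?_
    rw [abs_pow]
    refine pow_le_pow_left₀ (abs_nonneg _) ?_ 2
    refine (abs_real_inner_le_norm _ _).trans ?_
    rw [hx i, one_mul]
    exact hW z
  have hpt : ∀ z : Eu d, p z ≤ 1 → (inner ℝ (x i) z) ^ 2 ≤ (inner ℝ (x i) (ww p x L z)) ^ 2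
      + (27000 / (2 * Λ) * Real.exp (c * |inner ℝ (x i) z|)
        + Λ / 2 * Real.exp (-(c * L)) * ∑ j, Real.exp (c * |inner ℝ (x j) z|)) := by
    intro z hz
    have hnn : 0 ≤ 27000 / (2 * Λ) * Real.exp (c * |inner ℝ (x i) z|)
        + Λ / 2 * Real.exp (-(c * L)) * ∑ j, Real.exp (c * |inner ℝ (x j) z|) := by
      have : 0 ≤ ∑ j, Real.exp (c * |inner ℝ (x j) z|) :=
        Finset.sum_nonneg fun j _ => (Real.exp_pos _).le
      positivity
    rcases ww_cases p x L z with ⟨h, h'⟩ | ⟨h, h'⟩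
    · rw [h']
      linarith
    · have h2 : ∃ j, L < |inner ℝ (x j) z| := by
        by_contra hcon
        push Not at hcon
        exact h ⟨hz, hcon⟩
      obtain ⟨j, hj⟩ := h2
      have h3 : 1 ≤ Real.exp (-(c * L)) * ∑ j, Real.exp (c * |inner ℝ (x j) z|) := by
        calc (1 : ℝ) ≤ Real.exp (-(c * L)) * Real.exp (c * |inner ℝ (x j) z|) := by
              rw [← Real.exp_add, Real.one_le_exp_iff]
              nlinarith
          _ ≤ _ := by
              gcongr
              exact Finset.single_le_sum (f := fun j => Real.exp (c * |inner ℝ (x j) z|))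
                (fun j _ => (Real.exp_pos _).le) (Finset.mem_univ j)
      have h4 := pow_four_exp |inner ℝ (x i) z| c (abs_nonneg _) hcpos
      have h5 : |inner ℝ (x i) z| ^ 4 ≤ 27000 * Real.exp (c * |inner ℝ (x i) z|) :=
        h4.trans (by gcongr)
      have h6 : (inner ℝ (x i) z) ^ 2 ≤ |inner ℝ (x i) z| ^ 4 / (2 * Λ) + Λ / 2 := by
        rw [← sq_abs]
        set a := |inner ℝ (x i) z| with ha
        have h7 : 0 ≤ (a ^ 2 - Λ) ^ 2 / (2 * Λ) := by positivity
        have h8 : (a ^ 2 - Λ) ^ 2 / (2 * Λ) = a ^ 4 / (2 * Λ) + Λ / 2 - a ^ 2 := by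
          field_simp
          ring
        linarith
      calc (inner ℝ (x i) z) ^ 2 ≤ |inner ℝ (x i) z| ^ 4 / (2 * Λ) + Λ / 2 * 1 := by
            rw [mul_one]; exact h6
        _ ≤ (27000 * Real.exp (c * |inner ℝ (x i) z|)) / (2 * Λ) + Λ / 2 *
            (Real.exp (-(c * L)) * ∑ j, Real.exp (c * |inner ℝ (x j) z|)) := by gcongr
        _ ≤ _ := by
            have h9 : 0 ≤ (inner ℝ (x i) (ww p x L z)) ^ 2 := sq_nonneg _
            have e1 : (27000 * Real.exp (c * |inner ℝ (x i) z|)) / (2 * Λ)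
                = 27000 / (2 * Λ) * Real.exp (c * |inner ℝ (x i) z|) := by ring
            have e2 : Λ / 2 * (Real.exp (-(c * L)) * ∑ j, Real.exp (c * |inner ℝ (x j) z|))
                = Λ / 2 * Real.exp (-(c * L)) * ∑ j, Real.exp (c * |inner ℝ (x j) z|) := by ring
            rw [e1, e2]
            linarith
  have hsi : Integrable (fun z : Eu d => ∑ j, Real.exp (c * |inner ℝ (x j) z|)) (pr p) :=
    integrable_finsetSum _ fun j _ => hei j
  have hri : Integrable (fun z : Eu d => 27000 / (2 * Λ) * Real.exp (c * |inner ℝ (x i) z|)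
        + Λ / 2 * Real.exp (-(c * L)) * ∑ j, Real.exp (c * |inner ℝ (x j) z|)) (pr p) :=
    ((hei i).const_mul _).add (hsi.const_mul _)
  have h1 : (1 : ℝ) ≤ ∫ z, ((inner ℝ (x i) (ww p x L z)) ^ 2
      + (27000 / (2 * Λ) * Real.exp (c * |inner ℝ (x i) z|)
        + Λ / 2 * Real.exp (-(c * L)) * ∑ j, Real.exp (c * |inner ℝ (x j) z|))) ∂(pr p) := by
    have e1 : (1 : ℝ) = ∫ z, (inner ℝ (x i) z) ^ 2 ∂(pr p) := by
      rw [pr_second p h0 hcomp hiso, hx i, one_pow]
    rw [e1]
    refine integral_mono_ae (pr_int p h0 hcomp _ (by fun_prop)) (hwi.add hri) ?_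
    filter_upwards [pr_ae p hcont] with z hz
    exact hpt z hz
  rw [integral_add hwi hri, integral_add ((hei i).const_mul _) (hsi.const_mul _),
    integral_const_mul, integral_const_mul, integral_finsetSum _ fun j _ => hei j] at h1
  have h2 : ∑ j : Fin N, ∫ z, Real.exp (c * |inner ℝ (x j) z|) ∂(pr p) ≤ 3 * N := by
    calc _ ≤ ∑ _j : Fin N, (3 : ℝ) := Finset.sum_le_sum fun j _ => hej j
      _ = 3 * N := by simp; ring
  have h3 : 27000 / (2 * Λ) * ∫ z, Real.exp (c * |inner ℝ (x i) z|) ∂(pr p)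
      ≤ 27000 / (2 * Λ) * 3 := by
    have := hej i
    gcongr
  have h4 : Λ / 2 * Real.exp (-(c * L)) * ∑ j : Fin N, ∫ z, Real.exp (c * |inner ℝ (x j) z|) ∂(pr p)
      ≤ Λ / 2 * Real.exp (-(c * L)) * (3 * N) := by gcongr
  have h5 : ∫ z, ff p x L i z ^ 2 ∂(pr p)
      = (L⁻¹) ^ 2 * ∫ z, (inner ℝ (x i) (ww p x L z)) ^ 2 ∂(pr p) := by
    unfold ff
    simp only [mul_pow]
    rw [integral_const_mul]
  rw [h5]
  have h6 : 1 - (81000 / Λ + 3 * Λ * N * Real.exp (-(c * L))) / 2
      ≤ ∫ z, (inner ℝ (x i) (ww p x L z)) ^ 2 ∂(pr p) := by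
    have e1 : 27000 / (2 * Λ) * 3 = 81000 / Λ / 2 := by ring
    have e2 : Λ / 2 * Real.exp (-(c * L)) * (3 * N) = 3 * Λ * N * Real.exp (-(c * L)) / 2 := by ring
    linarith
  gcongr

include hcont h0 hcomp hiso hL in
/-- the norm of a signed sum -/
theorem sgn_le (I : Fin m → Fin N) (δ : Fin m → Bool) :
    p (∑ l, sg (δ l) • x (I l)) ^ 2 ≤ 2 * L ^ 2 *
      (‖Mv (pr p) (ff p x L) (ww p x L) I δ - Tv x L⁻¹ I δ‖ ^ 2 + Nv (pr p) (ff p x L) I δ ^ 2) := by
  have hP := pr_prob p h0 hcomp.measure_lt_top.ne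
  have hwm := ww_meas p hcont x L
  obtain ⟨W, hW⟩ := ww_bdd p x L hcomp
  have hRb : ∀ z, |R δ (fun l => ff p x L (I l) z)| ≤ 2 ^ m := fun z =>
    R_le δ _ fun l => ff_abs p x L hL _ _
  have hRm : Measurable fun z => R δ (fun l => ff p x L (I l) z) :=
    meas_Rf (fun i => ff_meas p hcont x L i) I δ
  have hRi : Integrable (fun z => R δ (fun l => ff p x L (I l) z)) (pr p) :=
    intg _ hRm (2 ^ m) hRb
  have h1 : p (Mv (pr p) (ff p x L) (ww p x L) I δ) ≤ Nv (pr p) (ff p x L) I δ := by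
    obtain ⟨φ, hφ1, hφ2⟩ := exists_norming p (Mv (pr p) (ff p x L) (ww p x L) I δ)
    obtain ⟨v, hv⟩ := exists_riesz φ
    rw [← hφ1, hv]
    unfold Mv Nv
    have hFi : Integrable (fun z => R δ (fun l => ff p x L (I l) z) • ww p x L z) (pr p) :=
      Integrable.of_bound (hRm.smul hwm).aestronglyMeasurable (2 ^ m * W)
        (Filter.Eventually.of_forall fun z => by
          show ‖R δ (fun l => ff p x L (I l) z) • ww p x L z‖ ≤ _
          rw [norm_smul, Real.norm_eq_abs]
          exact mul_le_mul (hRb z) (hW z) (norm_nonneg _) (by positivity))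
    rw [← integral_inner hFi]
    refine integral_mono (hFi.const_inner v) hRi fun z => ?_
    show inner ℝ v (R δ (fun l => ff p x L (I l) z) • ww p x L z) ≤ _
    rw [inner_smul_right]
    have h2 : inner ℝ v (ww p x L z) ≤ 1 := by
      rw [← hv]
      refine (hφ2 _).trans ?_
      rcases ww_cases p x L z with ⟨h, h'⟩ | ⟨_, h'⟩
      · rw [h']; exact h.1
      · rw [h', map_zero]; exact zero_le_one
    have h3 : 0 ≤ R δ (fun l => ff p x L (I l) z) :=
      R_nonneg δ _ fun l => ff_abs p x L hL _ _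
    calc R δ (fun l => ff p x L (I l) z) * inner ℝ v (ww p x L z)
        ≤ R δ (fun l => ff p x L (I l) z) * 1 := by gcongr
      _ = _ := mul_one _
  have h4 : p (Tv x L⁻¹ I δ) = L⁻¹ * p (∑ l, sg (δ l) • x (I l)) := by
    unfold Tv
    rw [map_smul_eq_mul, Real.norm_of_nonneg (by positivity)]
  set M := Mv (pr p) (ff p x L) (ww p x L) I δ with hM
  set T := Tv x L⁻¹ I δ with hT
  set n := Nv (pr p) (ff p x L) I δ with hn
  have h5 : p T ≤ n + ‖M - T‖ := by
    calc p T = p (M - (M - T)) := by congr 1; abel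
      _ ≤ p M + p (M - T) := map_sub_le_add p _ _
      _ ≤ n + ‖M - T‖ := by
          have := iso_upper p hcont h0 hcomp.measure_lt_top.ne hiso (M - T)
          linarith
  have h6 : p (∑ l, sg (δ l) • x (I l)) = L * p T := by
    rw [h4]
    field_simp
  have h7 : 0 ≤ p T := apply_nonneg p T
  have h8 : p T ^ 2 ≤ (n + ‖M - T‖) ^ 2 := pow_le_pow_left₀ h7 h5 2
  rw [h6, mul_pow]
  have h9 : (n + ‖M - T‖) ^ 2 ≤ 2 * (‖M - T‖ ^ 2 + n ^ 2) := by
    nlinarith [sq_nonneg (n - ‖M - T‖)]
  have h10 : 0 ≤ L ^ 2 := sq_nonneg L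
  nlinarith

end

/-- sums over the choices, for pairs -/
theorem sum_choice2 (G : Fin N → Fin N → ℝ) (l k : Fin m) (hlk : l ≠ k) :
    (N : ℝ) ^ 2 * ∑ I : Fin m → Fin N, G (I l) (I k) = (N : ℝ) ^ m * ∑ i, ∑ j, G i j := by
  classical
  have hone : ∀ i j : Fin N, (N : ℝ) ^ 2 * ∑ I : Fin m → Fin N,
      ((if I l = i then 1 else 0) * (if I k = j then 1 else 0) : ℝ) = (N : ℝ) ^ m := by
    intro i j
    have h0 : ∏ e : Fin m, ∑ a : Fin N, ((if e = l then (if a = i then (1 : ℝ) else 0) else 1) *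
        (if e = k then (if a = j then 1 else 0) else 1))
        = ∑ I : Fin m → Fin N, ∏ e, ((if e = l then (if I e = i then (1 : ℝ) else 0) else 1) *
        (if e = k then (if I e = j then 1 else 0) else 1)) := by
      have h := Finset.prod_univ_sum (fun _ : Fin m => (Finset.univ : Finset (Fin N)))
        (fun e a => (if e = l then (if a = i then (1 : ℝ) else 0) else 1) *
        (if e = k then (if a = j then 1 else 0) else 1))
      rw [Fintype.piFinset_univ] at h
      exact h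
    have h1 : ∀ I : Fin m → Fin N, ∏ e, ((if e = l then (if I e = i then (1 : ℝ) else 0) else 1) *
        (if e = k then (if I e = j then 1 else 0) else 1))
        = (if I l = i then 1 else 0) * (if I k = j then 1 else 0) := by
      intro I
      rw [Finset.prod_mul_distrib, Finset.prod_ite_eq', Finset.prod_ite_eq']
      simp
    simp only [h1] at h0
    rw [← h0, ← Finset.mul_prod_erase Finset.univ _ (Finset.mem_univ l),
      ← Finset.mul_prod_erase (Finset.univ.erase l) _ (Finset.mem_erase.2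
        ⟨hlk.symm, Finset.mem_univ k⟩)]
    have h2 : ∏ e ∈ ((Finset.univ : Finset (Fin m)).erase l).erase k, ∑ a : Fin N,
        ((if e = l then (if a = i then (1 : ℝ) else 0) else 1) *
        (if e = k then (if a = j then 1 else 0) else 1)) = (N : ℝ) ^ (m - 2) := by
      calc _ = ∏ e ∈ ((Finset.univ : Finset (Fin m)).erase l).erase k, (N : ℝ) := by
            refine Finset.prod_congr rfl fun e he => ?_
            rw [Finset.mem_erase, Finset.mem_erase] at he
            simp [he.1, he.2.1]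
        _ = _ := by
            rw [Finset.prod_const, Finset.card_erase_of_mem (Finset.mem_erase.2
              ⟨hlk.symm, Finset.mem_univ k⟩), Finset.card_erase_of_mem (Finset.mem_univ l)]
            simp only [Finset.card_univ, Fintype.card_fin]
            congr 1
    rw [h2]
    have h3 : ∑ a : Fin N, ((if l = l then (if a = i then (1 : ℝ) else 0) else 1) *
        (if l = k then (if a = j then 1 else 0) else 1)) = 1 := by
      simp [hlk]
    have h4 : ∑ a : Fin N, ((if k = l then (if a = i then (1 : ℝ) else 0) else 1) *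
        (if k = k then (if a = j then 1 else 0) else 1)) = 1 := by
      simp [hlk.symm]
    rw [h3, h4, one_mul, one_mul, ← pow_add]
    congr 1
    have h5 : 2 ≤ m := by
      have h6 : (l : ℕ) ≠ k := fun h => hlk (Fin.ext h)
      have := l.isLt
      have := k.isLt
      omega
    omega
  have hG : ∀ I : Fin m → Fin N, G (I l) (I k) = ∑ i, ∑ j, G i j *
      ((if I l = i then 1 else 0) * (if I k = j then 1 else 0) : ℝ) := by
    intro I
    simp
  simp only [hG]
  rw [Finset.sum_comm, Finset.mul_sum, Finset.mul_sum]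
  refine Finset.sum_congr rfl fun i _ => ?_
  rw [Finset.sum_comm, Finset.mul_sum, Finset.mul_sum]
  refine Finset.sum_congr rfl fun j _ => ?_
  rw [← Finset.mul_sum, ← hone i j]
  ring

end Pool.Agent.J4H21.CO
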