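import Mathlib
import Pool.Agent.J4H21.CO.Main

set_option autoImplicit false

/-!
The main theorem in isotropic position.
-/

namespace Pool.Agent.J4H21.CO

open MeasureTheory Set Module
open scoped ENNReal NNReal
open Pool.Agent.H815R2.Flat Pool.Agent.J4H21.FL Pool.Agent.J4H21.SC
open Pool.Agent.N555.RZ (sg)

variable {d N m : ℕ}

theorem cross_bound (x : Fin N → Eu d) (hx : Orthonormal ℝ x) (v : Eu d) (hv : ‖v‖ ≤ 1) :
    ∑ j, |inner ℝ v (x j)| ≤ √N := by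
  apply Real.le_sqrt_of_sq_le
  have h1 : (∑ j, |inner ℝ v (x j)|) ^ 2 ≤ N * ∑ j, |inner ℝ v (x j)| ^ 2 := by
    have := sq_sum_le_card_mul_sum_sq (s := (Finset.univ : Finset (Fin N)))
      (f := fun j => |inner ℝ v (x j)|)
    simpa using this
  have h2 : ∑ j, |inner ℝ v (x j)| ^ 2 ≤ ‖v‖ ^ 2 := by
    have := hx.sum_inner_products_le v (s := Finset.univ)
    refine le_trans (le_of_eq ?_) this
    refine Finset.sum_congr rfl fun j _ => ?_
    rw [real_inner_comm]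
    rfl
  have h3 : ‖v‖ ^ 2 ≤ 1 := by
    have := norm_nonneg v
    nlinarith
  calc (∑ j, |inner ℝ v (x j)|) ^ 2 ≤ N * ∑ j, |inner ℝ v (x j)| ^ 2 := h1
    _ ≤ N * 1 := by gcongr; linarith
    _ = N := mul_one _

theorem riesz_norm (p : Seminorm ℝ (Eu d)) (hp : ∀ y, p y ≤ ‖y‖) (φ : Eu d →ₗ[ℝ] ℝ)
    (hφ : ∀ y, |φ y| ≤ p y) : ∃ v : Eu d, ‖v‖ ≤ 1 ∧ ∀ y, φ y = inner ℝ v y := by
  obtain ⟨v, hv⟩ := exists_riesz φ
  refine ⟨v, ?_, hv⟩
  have h1 : ‖v‖ ^ 2 ≤ ‖v‖ := by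
    calc ‖v‖ ^ 2 = φ v := by rw [hv, real_inner_self_eq_norm_sq]
      _ ≤ |φ v| := le_abs_self _
      _ ≤ p v := hφ v
      _ ≤ ‖v‖ := hp v
  have h2 := norm_nonneg v
  by_contra hcon
  push Not at hcon
  nlinarith

theorem main_iso (hd : 2 ≤ d) (p : Seminorm ℝ (Eu d)) (hcont : Continuous p)
    (h0 : volume {y : Eu d | p y ≤ 1} ≠ 0) (hcomp : IsCompact {y : Eu d | p y ≤ 1})
    (hiso : Iso p) (lam : ℝ) (hlam : 1 ≤ lam) (hnot : ¬ Good p lam) (m : ℕ) (hm : 1 ≤ m)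
    (hc : 4 * 10 ^ 14 * (m : ℝ) ^ 4 * lam ^ 4 * Real.log (d + 1) ^ 6 ≤ d) :
    ∃ X : Fin m → Eu d, ∃ φ : Fin m → (Eu d →ₗ[ℝ] ℝ), (∀ i y, |φ i y| ≤ p y) ∧
      (∀ i, 1 / (14 * 10 ^ 5 * lam ^ 2 * Real.log (d + 1) ^ 3) ≤ φ i (X i)) ∧
      (∀ i, ∑ k ∈ Finset.univ.erase i, |φ i (X k)|
        ≤ 1 / (14 * 10 ^ 5 * lam ^ 2 * Real.log (d + 1) ^ 3) / 2) ∧
      ∑ δ : Fin m → Bool, p (∑ l, sg (δ l) • X l) ^ 2
        ≤ 2 ^ m * (88 * Real.log (d + 1)) ^ 2 := by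
  classical
  have hfin := (hcomp.measure_lt_top (μ := (volume : Measure (Eu d)))).ne
  have hP := pr_prob p h0 hfin
  have hd' : (2 : ℝ) ≤ d := by exact_mod_cast hd
  have hL1 : 1 ≤ Real.log ((d : ℝ) + 1) := by
    rw [Real.le_log_iff_exp_le (by positivity)]
    have := Real.exp_one_lt_d9
    linarith
  set L₀ := Real.log ((d : ℝ) + 1) with hL₀
  have hL0 : 0 < L₀ := by linarith
  have hlam0 : 0 < lam := by linarith
  have hm' : (1 : ℝ) ≤ m := by exact_mod_cast hm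
  have hm0 : (0 : ℝ) < m := by linarith
  -- `d` is large
  have hlam4 : 1 ≤ lam ^ 4 := one_le_pow₀ hlam
  have hL6 : 1 ≤ L₀ ^ 6 := one_le_pow₀ hL1
  have hdm : 4 * 10 ^ 14 * (m : ℝ) ^ 4 ≤ d := by
    refine le_trans ?_ hc
    calc 4 * 10 ^ 14 * (m : ℝ) ^ 4 = 4 * 10 ^ 14 * (m : ℝ) ^ 4 * 1 * 1 := by ring
      _ ≤ _ := by gcongr
  have hm4 : (m : ℝ) ≤ (m : ℝ) ^ 4 := le_self_pow₀ hm' (by norm_num)
  have hm41 : (1 : ℝ) ≤ (m : ℝ) ^ 4 := one_le_pow₀ hm'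
  have hd14 : (4 * 10 ^ 14 : ℝ) ≤ d := by
    calc (4 * 10 ^ 14 : ℝ) = 4 * 10 ^ 14 * 1 := by ring
      _ ≤ 4 * 10 ^ 14 * (m : ℝ) ^ 4 := by gcongr
      _ ≤ d := hdm
  have hmd : (m : ℝ) ≤ d := by linarith
  have hd0 : (0 : ℝ) < d := by linarith
  -- the number of vectors
  set N : ℕ := (d + 1) / 2 with hN
  have hN1 : 0 < N := by omega
  have hNd : N ≤ d := by omega
  have hdN : d ≤ 2 * N := by omega
  have hN' : (0 : ℝ) < N := by exact_mod_cast hN1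
  have hNd' : (N : ℝ) ≤ d := by exact_mod_cast hNd
  have hdN' : (d : ℝ) ≤ 2 * N := by exact_mod_cast hdN
  obtain ⟨x, φ, hx⟩ := greedy2 hd p hcont h0 hfin hiso lam hlam hnot N hNd
  have horth : Orthonormal ℝ (fun i : Fin N => x i) := by
    refine ⟨fun i => (hx i i.2).1, fun i l hil => ?_⟩
    rcases lt_or_gt_of_ne (Fin.val_injective.ne hil) with h | h
    · exact (hx l l.2).2.1 i h
    · rw [real_inner_comm]
      exact (hx i i.2).2.1 l h
  set x' : Fin N → Eu d := fun i => x i with hx'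
  have hxn : ∀ i, ‖x' i‖ = 1 := horth.1
  set L : ℝ := 40 * L₀ with hL
  have hLpos : 0 < L := by positivity
  set τ : ℝ := 1 / (14 * 10 ^ 5 * lam ^ 2 * L₀ ^ 3) with hτ
  have hτ0 : 0 < τ := by positivity
  have hlog := Real.log_two_gt_d9
  -- numerics
  set σ : ℝ := √(√d) with hσ
  have hσ2 : σ ^ 2 = √d := Real.sq_sqrt (Real.sqrt_nonneg _)
  have hσ4 : σ ^ 4 = (d : ℝ) := by
    calc σ ^ 4 = (σ ^ 2) ^ 2 := by ring
      _ = (d : ℝ) := by rw [hσ2, Real.sq_sqrt hd0.le]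
  have hσ0 : 0 < σ := by positivity
  have hσm : 4000 * (m : ℝ) ≤ σ := by
    have h1 : (4000 * (m : ℝ)) ^ 4 ≤ σ ^ 4 := by
      rw [hσ4]
      calc (4000 * (m : ℝ)) ^ 4 = 2.56 * 10 ^ 14 * (m : ℝ) ^ 4 := by ring
        _ ≤ 4 * 10 ^ 14 * (m : ℝ) ^ 4 := by gcongr; norm_num
        _ ≤ d := hdm
    exact le_of_pow_le_pow_left₀ (by norm_num) hσ0.le h1
  have hsN : 0.7 * σ ^ 2 ≤ √N := by
    apply Real.le_sqrt_of_sq_le
    have : (0.7 * σ ^ 2) ^ 2 = 0.49 * d := by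
      rw [mul_pow, ← pow_mul, hσ4]
      norm_num
    rw [this]
    linarith
  have hcond : (4 * σ + 2) * m ≤ Real.log 2 / 4 * L * √N := by
    have h1 : (1 : ℝ) ≤ σ := by linarith
    calc (4 * σ + 2) * m ≤ (6 * σ) * m := by gcongr; linarith
      _ ≤ (6 * σ) * (σ / 4000) := by gcongr; linarith
      _ ≤ 0.1732 * (40 * 1) * (0.7 * σ ^ 2) := by nlinarith [sq_nonneg σ]
      _ ≤ Real.log 2 / 4 * L * √N := by
          rw [hL]
          have h2 : (0.1732 : ℝ) ≤ Real.log 2 / 4 := by linarith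
          gcongr
  have hrho := rho_bound (m := m) p hcont h0 hcomp hiso x' horth L hLpos hd hN1 (4 * σ)
    (by positivity) (by rw [mul_pow, hσ4]; linarith) hcond
  -- the truncation
  have hexp : Real.exp (-(Real.log 2 / 4 * L)) ≤ 1 / ((d : ℝ) + 1) ^ 6 := by
    have e1 : 1 / ((d : ℝ) + 1) ^ 6 = Real.exp (-(6 * L₀)) := by
      rw [Real.exp_neg, one_div]
      congr 1
      rw [show (6 : ℝ) * L₀ = Real.log (((d : ℝ) + 1) ^ 6) by
        rw [Real.log_pow]; norm_num [hL₀], Real.exp_log (by positivity)]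
    rw [e1]
    apply Real.exp_le_exp.2
    rw [hL]
    nlinarith
  set Λ : ℝ := 10 ^ 4 * m with hΛ
  have hΛ0 : 0 < Λ := by positivity
  set ε : ℝ := (L⁻¹) ^ 2 * ((81000 / Λ + 3 * Λ * N * Real.exp (-(Real.log 2 / 4 * L))) / 2) with hε
  have hsec : (N : ℝ) * ((L⁻¹) ^ 2 - ε) ≤ ∑ i, ∫ z, ff p x' L i z ^ 2 ∂(pr p) := by
    calc (N : ℝ) * ((L⁻¹) ^ 2 - ε) = ∑ _i : Fin N, ((L⁻¹) ^ 2 - ε) := by
          rw [Finset.sum_const, Finset.card_univ, Fintype.card_fin, nsmul_eq_mul]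
      _ ≤ _ := by
          refine Finset.sum_le_sum fun i _ => ?_
          refine le_trans (le_of_eq ?_) (sec_bound p hcont h0 hcomp hiso x' L hLpos hxn i Λ hΛ0)
          rw [hε]
          ring
  have hmε : 2 * m * ε ≤ 0.01 := by
    have h1 : 3 * Λ * N * Real.exp (-(Real.log 2 / 4 * L)) ≤ 1 / m := by
      calc 3 * Λ * N * Real.exp (-(Real.log 2 / 4 * L)) ≤ 3 * Λ * N * (1 / ((d : ℝ) + 1) ^ 6) := by
            gcongr
        _ ≤ 1 / m := by
            rw [mul_one_div, div_le_div_iff₀ (by positivity) hm0, one_mul, hΛ]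
            have h3 : (3 * 10 ^ 4 : ℝ) ≤ d := by linarith
            calc 3 * (10 ^ 4 * (m : ℝ)) * N * m ≤ 3 * (10 ^ 4 * (d : ℝ)) * (d : ℝ) * (d : ℝ) := by gcongr
              _ = (3 * 10 ^ 4) * (d : ℝ) ^ 3 := by ring
              _ ≤ (d : ℝ) * (d : ℝ) ^ 3 := by gcongr
              _ ≤ ((d : ℝ) + 1) * ((d : ℝ) + 1) ^ 3 * 1 * 1 := by
                  have : (d : ℝ) ≤ d + 1 := by linarith
                  rw [mul_one, mul_one]
                  gcongr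
              _ ≤ ((d : ℝ) + 1) * ((d : ℝ) + 1) ^ 3 * ((d : ℝ) + 1) * ((d : ℝ) + 1) := by
                  gcongr <;> linarith
              _ = ((d : ℝ) + 1) ^ 6 := by ring
    have h2 : 81000 / Λ = 8.1 / m := by
      rw [hΛ]
      field_simp
      norm_num
    have h3 : (L⁻¹) ^ 2 ≤ 1 / 1600 := by
      rw [inv_pow, ← one_div]
      apply one_div_le_one_div_of_le (by norm_num)
      rw [hL]
      nlinarith
    calc 2 * m * ε = (L⁻¹) ^ 2 * (m * (81000 / Λ + 3 * Λ * N * Real.exp (-(Real.log 2 / 4 * L)))) := by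
          rw [hε]; ring
      _ ≤ 1 / 1600 * (m * (8.1 / m + 1 / m)) := by
          rw [h2]
          gcongr
      _ ≤ 0.01 := by
          have : (m : ℝ) * (8.1 / m + 1 / m) = 9.1 := by field_simp; norm_num
          rw [this]
          norm_num
  obtain ⟨W, hW⟩ := ww_bdd p x' L hcomp
  have htot := total (m := m) (P := pr p) hN1 (fun i => ff_meas p hcont x' L i)
    (ff_abs p x' L hLpos) (ww_meas p hcont x' L) hW hxn (fun i z => rfl)
    (inv_pos.2 hLpos).le (ww_mean p x' L) (ww_cov p hcont x' L h0 hcomp hiso) ε 0.85 hsec hrho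
  -- the cross terms
  have hp1 : ∀ y, p y ≤ ‖y‖ := iso_upper p hcont h0 hfin hiso
  set Y : (Fin m → Fin N) → ℝ := fun I => ∑ l, ∑ k ∈ Finset.univ.erase l,
    |φ (I l) (x' (I k))| with hY
  have hY0 : ∀ I, 0 ≤ Y I := fun I =>
    Finset.sum_nonneg fun l _ => Finset.sum_nonneg fun k _ => abs_nonneg _
  have hcross : ∑ i : Fin N, ∑ j : Fin N, |φ i (x' j)| ≤ N * √N := by
    calc ∑ i : Fin N, ∑ j : Fin N, |φ i (x' j)| ≤ ∑ _i : Fin N, √(N : ℝ) := by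
          refine Finset.sum_le_sum fun i _ => ?_
          obtain ⟨v, hv1, hv2⟩ := riesz_norm p hp1 (φ i) (hx i i.2).2.2.1
          simp only [hv2]
          exact cross_bound x' horth v hv1
      _ = N * √N := by simp
  have hYsum : ∑ I : Fin m → Fin N, Y I ≤ (N : ℝ) ^ m * (τ / 10) := by
    have h1 : (N : ℝ) ^ 2 * ∑ I : Fin m → Fin N, Y I
        = ∑ l : Fin m, ∑ k ∈ Finset.univ.erase l, (N : ℝ) ^ m *
          ∑ i : Fin N, ∑ j : Fin N, |φ i (x' j)| := by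
      rw [hY]
      simp only
      rw [Finset.sum_comm, Finset.mul_sum]
      refine Finset.sum_congr rfl fun l _ => ?_
      rw [Finset.sum_comm, Finset.mul_sum]
      refine Finset.sum_congr rfl fun k hk => ?_
      exact sum_choice2 (fun i j : Fin N => |φ i (x' j)|) l k (Finset.ne_of_mem_erase hk).symm
    have h2 : (N : ℝ) ^ 2 * ∑ I : Fin m → Fin N, Y I ≤ (m : ℝ) ^ 2 * ((N : ℝ) ^ m * (N * √N)) := by
      rw [h1]
      calc ∑ l : Fin m, ∑ k ∈ Finset.univ.erase l, (N : ℝ) ^ m *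
            ∑ i : Fin N, ∑ j : Fin N, |φ i (x' j)|
          ≤ ∑ _l : Fin m, ∑ _k : Fin m, (N : ℝ) ^ m * (N * √N) := by
            refine Finset.sum_le_sum fun l _ => ?_
            refine (Finset.sum_le_sum fun k _ => mul_le_mul_of_nonneg_left hcross
              (by positivity)).trans ?_
            exact Finset.sum_le_sum_of_subset_of_nonneg (Finset.subset_univ _)
              fun k _ _ => by positivity
        _ = _ := by
            simp
            ring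
    -- `10 m² ≤ τ √N`
    have h3 : 10 * (m : ℝ) ^ 2 ≤ τ * √N := by
      have h4 : 14 * 10 ^ 6 * (m : ℝ) ^ 2 * lam ^ 2 * L₀ ^ 3 ≤ √N := by
        apply Real.le_sqrt_of_sq_le
        calc (14 * 10 ^ 6 * (m : ℝ) ^ 2 * lam ^ 2 * L₀ ^ 3) ^ 2
            = 1.96 * 10 ^ 14 * (m : ℝ) ^ 4 * lam ^ 4 * L₀ ^ 6 := by ring
          _ ≤ 2 * 10 ^ 14 * (m : ℝ) ^ 4 * lam ^ 4 * L₀ ^ 6 := by gcongr; norm_num
          _ ≤ N := by linarith
      rw [hτ, one_div, inv_mul_eq_div, le_div_iff₀ (by positivity)]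
      linarith
    have h4 : (N : ℝ) ^ 2 * ∑ I : Fin m → Fin N, Y I
        ≤ (N : ℝ) ^ 2 * ((N : ℝ) ^ m * (τ / 10)) := by
      refine h2.trans ?_
      have hss : √(N : ℝ) * √N = N := Real.mul_self_sqrt hN'.le
      calc (m : ℝ) ^ 2 * ((N : ℝ) ^ m * (N * √N)) ≤ (τ * √N / 10) * ((N : ℝ) ^ m * (N * √N)) := by
            gcongr
            linarith
        _ = (√N * √N) * N * ((N : ℝ) ^ m * (τ / 10)) := by ring
        _ = _ := by rw [hss]; ring
    exact le_of_mul_le_mul_left h4 (by positivity)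
  -- the choice
  set Ψ : (Fin m → Fin N) → ℝ := fun I => ∑ δ : Fin m → Bool,
    (‖Mv (pr p) (ff p x' L) (ww p x' L) I δ - Tv x' L⁻¹ I δ‖ ^ 2
      + Nv (pr p) (ff p x' L) I δ ^ 2) with hΨ
  have hΨ0 : ∀ I, 0 ≤ Ψ I := fun I => Finset.sum_nonneg fun δ _ => by positivity
  have h2m : (0 : ℝ) < 2 ^ m := by positivity
  have hsum : ∑ I : Fin m → Fin N, (Ψ I / 2 ^ m + 5 / τ * Y I)
      ≤ ∑ _I : Fin m → Fin N, (2.4 : ℝ) := by
    rw [Finset.sum_add_distrib, ← Finset.sum_div, ← Finset.mul_sum]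
    have h1 : (∑ I : Fin m → Fin N, Ψ I) / 2 ^ m ≤ 1.9 * (N : ℝ) ^ m := by
      rw [div_le_iff₀ h2m]
      refine htot.trans ?_
      have : 0 < (2 : ℝ) ^ m * (N : ℝ) ^ m := by positivity
      calc 2 ^ m * (N : ℝ) ^ m * (1 + 0.85 + 2 * m * ε) ≤ 2 ^ m * (N : ℝ) ^ m * 1.9 := by
            gcongr
            linarith
        _ = _ := by ring
    have h2 : 5 / τ * ∑ I : Fin m → Fin N, Y I ≤ 0.5 * (N : ℝ) ^ m := by
      calc 5 / τ * ∑ I : Fin m → Fin N, Y I ≤ 5 / τ * ((N : ℝ) ^ m * (τ / 10)) := by gcongr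
        _ = 0.5 * (N : ℝ) ^ m := by
            field_simp
            norm_num
    calc _ ≤ 1.9 * (N : ℝ) ^ m + 0.5 * (N : ℝ) ^ m := add_le_add h1 h2
      _ = _ := by
        simp
        ring
  have hne : (Finset.univ : Finset (Fin m → Fin N)).Nonempty :=
    ⟨fun _ => ⟨0, hN1⟩, Finset.mem_univ _⟩
  obtain ⟨I, -, hI⟩ := Finset.exists_le_of_sum_le hne hsum
  have hI1 : Ψ I ≤ 2.4 * 2 ^ m := by
    have h1 : Ψ I / 2 ^ m ≤ 2.4 := by
      have : 0 ≤ 5 / τ * Y I := mul_nonneg (by positivity) (hY0 I)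
      linarith
    rwa [div_le_iff₀ h2m] at h1
  have hI2 : Y I ≤ τ / 2 := by
    have h1 : 5 / τ * Y I ≤ 2.4 := by
      have : 0 ≤ Ψ I / 2 ^ m := div_nonneg (hΨ0 I) h2m.le
      linarith
    have h2 : Y I ≤ 2.4 * (τ / 5) := by
      calc Y I = (5 / τ * Y I) * (τ / 5) := by field_simp
        _ ≤ 2.4 * (τ / 5) := by gcongr
    linarith
  refine ⟨fun l => x' (I l), fun l => φ (I l), fun i y => (hx (I i) (I i).2).2.2.1 y,
    fun i => ?_, fun i => ?_, ?_⟩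
  · refine le_trans ?_ (hx (I i) (I i).2).2.2.2.2
    unfold tau2
    have hi := (I i).2
    have h1 : (1 : ℝ) / 2 ≤ ((d - (I i : ℕ) : ℕ) : ℝ) / d := by
      rw [div_le_div_iff₀ (by norm_num) hd0, one_mul]
      have : d ≤ (d - (I i : ℕ)) * 2 := by omega
      exact_mod_cast this
    have h2 : 1 / (14 * 10 ^ 5 * lam ^ 2 * L₀ ^ 3) = 1 / 2 / (7 * 10 ^ 5 * lam ^ 2 * L₀ ^ 3) := by
      field_simp
      norm_num
    rw [hτ, h2, ← hL₀]
    gcongr
  · refine le_trans ?_ hI2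
    exact Finset.single_le_sum (f := fun l => ∑ k ∈ Finset.univ.erase l, |φ (I l) (x' (I k))|)
      (fun l _ => Finset.sum_nonneg fun k _ => abs_nonneg _) (Finset.mem_univ i)
  · calc ∑ δ : Fin m → Bool, p (∑ l, sg (δ l) • x' (I l)) ^ 2
        ≤ ∑ δ : Fin m → Bool, 2 * L ^ 2 *
          (‖Mv (pr p) (ff p x' L) (ww p x' L) I δ - Tv x' L⁻¹ I δ‖ ^ 2
            + Nv (pr p) (ff p x' L) I δ ^ 2) :=
          Finset.sum_le_sum fun δ _ => sgn_le p hcont h0 hcomp hiso x' L hLpos I δ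
      _ = 2 * L ^ 2 * Ψ I := by rw [hΨ, ← Finset.mul_sum]
      _ ≤ 2 * L ^ 2 * (2.4 * 2 ^ m) := by gcongr
      _ ≤ _ := by
          rw [hL]
          have : 0 < 2 ^ m * L₀ ^ 2 := by positivity
          nlinarith

end Pool.Agent.J4H21.CO
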