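import Mathlib
import Pool.Agent.J4H21.CO.Iso
import Pool.Agent.J4H21.FL.Setup
import Pool.Agent.N555.RZ.Shatter

set_option autoImplicit false

/-!
General position; cube-like images; finite cotype.
-/

namespace Pool.Agent.J4H21.CO

open MeasureTheory Set Module
open scoped ENNReal NNReal
open Pool.Agent.H815R2.Flat Pool.Agent.J4H21.FL Pool.Agent.J4H21.SC
open Pool.Agent.N555.RZ (sg sg_sq sg_abs shatter)

variable {d N m : ℕ}

theorem main_gen (hd : 2 ≤ d) (p : Seminorm ℝ (Eu d)) (hcont : Continuous p)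
    (h0 : volume {y : Eu d | p y ≤ 1} ≠ 0) (hcomp : IsCompact {y : Eu d | p y ≤ 1})
    (lam : ℝ) (hlam : 1 ≤ lam) (hnot : ¬ Good p lam) (m : ℕ) (hm : 1 ≤ m)
    (hc : 4 * 10 ^ 14 * (m : ℝ) ^ 4 * lam ^ 4 * Real.log (d + 1) ^ 6 ≤ d) :
    ∃ X : Fin m → Eu d, ∃ φ : Fin m → (Eu d →ₗ[ℝ] ℝ), (∀ i y, |φ i y| ≤ p y) ∧
      (∀ i, 1 / (14 * 10 ^ 5 * lam ^ 2 * Real.log (d + 1) ^ 3) ≤ φ i (X i)) ∧
      (∀ i, ∑ k ∈ Finset.univ.erase i, |φ i (X k)|
        ≤ 1 / (14 * 10 ^ 5 * lam ^ 2 * Real.log (d + 1) ^ 3) / 2) ∧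
      ∑ δ : Fin m → Bool, p (∑ l, sg (δ l) • X l) ^ 2
        ≤ 2 ^ m * (88 * Real.log (d + 1)) ^ 2 := by
  obtain ⟨S, hS⟩ := exists_iso p hcont h0 hcomp
  obtain ⟨c, hc0, hct, hc'⟩ := change p hcont S
  have hvol := change_vol p S c hc'
  have hcomp' : IsCompact {y : Eu d | tr p S y ≤ 1} := by
    have h1 := hcomp.image S.continuous
    have h2 : S '' {y : Eu d | p y ≤ 1} = {y : Eu d | tr p S y ≤ 1} := by
      ext y
      constructor
      · rintro ⟨z, hz, rfl⟩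
        show tr p S (S z) ≤ 1
        rw [tr_apply, ContinuousLinearEquiv.symm_apply_apply]
        exact hz
      · intro hy
        exact ⟨S.symm y, hy, S.apply_symm_apply y⟩
    rwa [h2] at h1
  obtain ⟨X, φ, h1, h2, h3, h4⟩ := main_iso hd (tr p S) (hcont.comp S.symm.continuous)
    (fun h => h0 (by rw [hvol, h, mul_zero])) hcomp' hS lam hlam
    (fun h => hnot (good_tr p S lam h)) m hm hc
  refine ⟨fun i => S.symm (X i), fun i => (φ i).comp (S : Eu d →ₗ[ℝ] Eu d), fun i y => ?_,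
    fun i => ?_, fun i => ?_, ?_⟩
  · have := h1 i (S y)
    rwa [tr_apply, ContinuousLinearEquiv.symm_apply_apply] at this
  · refine (h2 i).trans (le_of_eq ?_)
    show φ i (X i) = φ i (S (S.symm (X i)))
    rw [S.apply_symm_apply]
  · refine (le_of_eq ?_).trans (h3 i)
    refine Finset.sum_congr rfl fun k _ => ?_
    show |φ i (S (S.symm (X k)))| = |φ i (X k)|
    rw [S.apply_symm_apply]
  · refine (le_of_eq ?_).trans h4
    refine Finset.sum_congr rfl fun δ _ => ?_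
    have e : ∑ l, sg (δ l) • S.symm (X l) = S.symm (∑ l, sg (δ l) • X l) := by
      rw [map_sum]
      simp only [map_smul]
    rw [tr_apply, e]

/-- sign patterns give a cube -/
theorem cube_of_signs (n : ℕ) (p : Seminorm ℝ (Eu d)) (hcomp : IsCompact {y : Eu d | p y ≤ 1})
    (c : ℝ) (φ : Fin n → (Eu d →L[ℝ] ℝ)) (h1 : ∀ i y, |φ i y| ≤ p y)
    (h2 : ∀ δ : Fin n → Bool, ∃ z, p z ≤ 1 ∧ ∀ i, c ≤ sg (δ i) * φ i z) :
    ∃ T : Eu d →L[ℝ] Eu n,
      (∀ y : Eu n, (∀ i, |y i| ≤ c) → y ∈ T '' {y : Eu d | p y ≤ 1}) ∧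
      ∀ x, p x ≤ 1 → ∀ i, |T x i| ≤ 1 := by
  let T : Eu d →L[ℝ] Eu n :=
    ((EuclideanSpace.equiv (Fin n) ℝ).symm : (Fin n → ℝ) →L[ℝ] EuclideanSpace ℝ (Fin n)).comp
      (ContinuousLinearMap.pi φ)
  have hp : ∀ x i, T x i = φ i x := fun x i => rfl
  have hK : Convex ℝ {y : Eu d | p y ≤ 1} := by
    have := p.convex_closedBall 0 1
    have e : {y : Eu d | p y ≤ 1} = p.closedBall 0 1 := by
      ext y
      rw [Seminorm.mem_closedBall, sub_zero]
      exact Iff.rfl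
    rw [e]
    exact this
  refine ⟨T, fun y hy => ?_, fun x hx i => ?_⟩
  · by_contra hcon
    have hc1 : Convex ℝ (T '' {y : Eu d | p y ≤ 1}) := hK.linear_image T.toLinearMap
    have hc2 : IsClosed (T '' {y : Eu d | p y ≤ 1}) := (hcomp.image T.continuous).isClosed
    obtain ⟨f, u, hf1, hf2⟩ := geometric_hahn_banach_closed_point hc1 hc2 hcon
    have hexp : ∀ w : EuclideanSpace ℝ (Fin n), f w = ∑ i, w i * f (EuclideanSpace.single i 1) := by
      intro w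
      have hw : w = ∑ i, w i • EuclideanSpace.single i (1 : ℝ) := by
        ext j
        simp [Pi.single_apply]
      conv_lhs => rw [hw]
      rw [map_sum]
      refine Finset.sum_congr rfl fun i _ => ?_
      rw [map_smul, smul_eq_mul]
    set lam : Fin n → ℝ := fun i => f (EuclideanSpace.single i 1) with hlam
    obtain ⟨z, hz, hzi⟩ := h2 fun i => decide (0 ≤ lam i)
    have h3 := hf1 (T z) ⟨z, hz, rfl⟩
    have h4 : f y ≤ f (T z) := by
      rw [hexp y, hexp (T z)]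
      refine Finset.sum_le_sum fun i _ => ?_
      have h5 := hzi i
      rw [hp]
      change y i * lam i ≤ φ i z * lam i
      have h6 := abs_le.mp (hy i)
      by_cases h7 : 0 ≤ lam i
      · simp only [h7, decide_true, sg, if_true, one_mul] at h5
        have : y i ≤ φ i z := by linarith
        gcongr
      · have h8 : decide (0 ≤ lam i) = false := by simpa using h7
        rw [h8] at h5
        simp only [sg, Bool.false_eq_true, if_false] at h5
        have : φ i z ≤ y i := by linarith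
        exact mul_le_mul_of_nonpos_right this (by linarith)
    linarith
  · rw [hp]
    exact (h1 i x).trans hx

/-- the cube-like image -/
theorem cubic_gen (hd : 2 ≤ d) (p : Seminorm ℝ (Eu d)) (hcont : Continuous p)
    (h0 : volume {y : Eu d | p y ≤ 1} ≠ 0) (hcomp : IsCompact {y : Eu d | p y ≤ 1})
    (lam : ℝ) (hlam : 1 ≤ lam) (hnot : ¬ Good p lam) (n : ℕ) (hn : 1 ≤ n)
    (hc : 64 * 10 ^ 14 * (n : ℝ) ^ 4 * lam ^ 4 * Real.log (d + 1) ^ 6 ≤ d) :
    ∃ T : Eu d →L[ℝ] Eu n,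
      (∀ y : Eu n, (∀ i, |y i| ≤ 1 / (35 * 10 ^ 7 * lam ^ 2 * Real.log (d + 1) ^ 4)) →
        y ∈ T '' {y : Eu d | p y ≤ 1}) ∧
      ∀ x, p x ≤ 1 → ∀ i, |T x i| ≤ 1 := by
  classical
  have hd' : (2 : ℝ) ≤ d := by exact_mod_cast hd
  have hL0 : 0 < Real.log ((d : ℝ) + 1) := Real.log_pos (by linarith)
  set L₀ := Real.log ((d : ℝ) + 1) with hL₀
  have hlam0 : 0 < lam := by linarith
  obtain ⟨X, φ, h1, h2, h3, h4⟩ := main_gen hd p hcont h0 hcomp lam hlam hnot (2 * n) (by omega)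
    (by
      push_cast
      calc 4 * 10 ^ 14 * (2 * (n : ℝ)) ^ 4 * lam ^ 4 * L₀ ^ 6
          = 64 * 10 ^ 14 * (n : ℝ) ^ 4 * lam ^ 4 * L₀ ^ 6 := by ring
        _ ≤ (d : ℝ) := hc)
  set τ : ℝ := 1 / (14 * 10 ^ 5 * lam ^ 2 * L₀ ^ 3) with hτ
  have hτ0 : 0 < τ := by positivity
  set B : ℝ := 125 * L₀ with hB
  have hB0 : 0 < B := by positivity
  -- the good signs
  set G := Finset.univ.filter fun δ : Fin (2 * n) → Bool => p (∑ l, sg (δ l) • X l) ≤ B with hG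
  have hGc : 2 ^ (2 * n) < 2 * G.card := by
    by_contra hcon
    push Not at hcon
    have hcompl : (2 : ℝ) ^ (2 * n) ≤ 2 * (Gᶜ.card : ℝ) := by
      have h5 : G.card + Gᶜ.card = 2 ^ (2 * n) := by
        rw [Finset.card_add_card_compl]
        simp
      have h6 : (2 : ℕ) ^ (2 * n) ≤ 2 * Gᶜ.card := by omega
      exact_mod_cast h6
    have hsum : (Gᶜ.card : ℝ) * B ^ 2 ≤ ∑ δ : Fin (2 * n) → Bool, p (∑ l, sg (δ l) • X l) ^ 2 := by
      calc (Gᶜ.card : ℝ) * B ^ 2 = ∑ δ ∈ Gᶜ, B ^ 2 := by simp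
        _ ≤ ∑ δ ∈ Gᶜ, p (∑ l, sg (δ l) • X l) ^ 2 := by
            refine Finset.sum_le_sum fun δ hδ => ?_
            rw [hG, Finset.mem_compl, Finset.mem_filter, not_and, not_le] at hδ
            have := hδ (Finset.mem_univ _)
            exact pow_le_pow_left₀ hB0.le this.le 2
        _ ≤ _ := Finset.sum_le_univ_sum_of_nonneg fun δ => sq_nonneg _
    have h5 : (0 : ℝ) < 2 ^ (2 * n) := by positivity
    have h6 := hsum.trans h4
    have h7 : (2 : ℝ) ^ (2 * n) * B ^ 2 ≤ 2 * (2 ^ (2 * n) * (88 * L₀) ^ 2) := by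
      calc (2 : ℝ) ^ (2 * n) * B ^ 2 ≤ 2 * (Gᶜ.card : ℝ) * B ^ 2 := by gcongr
        _ = 2 * ((Gᶜ.card : ℝ) * B ^ 2) := by ring
        _ ≤ _ := by gcongr
    have h8 : 0 < (2 : ℝ) ^ (2 * n) * L₀ ^ 2 := by positivity
    rw [hB] at h7
    nlinarith
  obtain ⟨e, he⟩ := shatter n G hGc
  refine cube_of_signs n p hcomp _ (fun i => LinearMap.toContinuousLinearMap (φ (e i)))
    (fun i y => h1 _ _) fun δ => ?_
  obtain ⟨γ, hγ, hγδ⟩ := he δ
  rw [hG, Finset.mem_filter] at hγ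
  refine ⟨B⁻¹ • ∑ l, sg (γ l) • X l, ?_, fun i => ?_⟩
  · rw [map_smul_eq_mul, Real.norm_of_nonneg (by positivity), inv_mul_le_iff₀ hB0, mul_one]
    exact hγ.2
  · show _ ≤ sg (δ i) * φ (e i) (B⁻¹ • ∑ l, sg (γ l) • X l)
    rw [map_smul, smul_eq_mul, map_sum, ← hγδ i]
    simp only [map_smul, smul_eq_mul]
    rw [← Finset.add_sum_erase Finset.univ _ (Finset.mem_univ (e i))]
    have h5 : |∑ k ∈ Finset.univ.erase (e i), sg (γ k) * φ (e i) (X k)| ≤ τ / 2 := by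
      refine (Finset.abs_sum_le_sum_abs _ _).trans ((Finset.sum_le_sum fun k _ => ?_).trans
        (h3 (e i)))
      rw [abs_mul, sg_abs, one_mul]
    have h6 : τ / 2 ≤ sg (γ (e i)) * (sg (γ (e i)) * φ (e i) (X (e i))
        + ∑ k ∈ Finset.univ.erase (e i), sg (γ k) * φ (e i) (X k)) := by
      have h7 : |sg (γ (e i)) * ∑ k ∈ Finset.univ.erase (e i), sg (γ k) * φ (e i) (X k)| ≤ τ / 2 := by
        rw [abs_mul, sg_abs, one_mul]
        exact h5
      have h8 := (abs_le.1 h7).1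
      have h9 := h2 (e i)
      have h10 : sg (γ (e i)) * (sg (γ (e i)) * φ (e i) (X (e i))
        + ∑ k ∈ Finset.univ.erase (e i), sg (γ k) * φ (e i) (X k))
        = (sg (γ (e i)) * sg (γ (e i))) * φ (e i) (X (e i))
          + sg (γ (e i)) * ∑ k ∈ Finset.univ.erase (e i), sg (γ k) * φ (e i) (X k) := by ring
      rw [h10, sg_sq, one_mul]
      linarith
    calc 1 / (35 * 10 ^ 7 * lam ^ 2 * L₀ ^ 4) = B⁻¹ * (τ / 2) := by
          rw [hB, hτ]
          field_simp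
          norm_num
      _ ≤ B⁻¹ * (sg (γ (e i)) * (sg (γ (e i)) * φ (e i) (X (e i))
        + ∑ k ∈ Finset.univ.erase (e i), sg (γ k) * φ (e i) (X k))) := by gcongr
      _ = _ := by ring

/-- finite cotype -/
theorem cotype_gen (hd : 2 ≤ d) (p : Seminorm ℝ (Eu d)) (hcont : Continuous p)
    (h0 : volume {y : Eu d | p y ≤ 1} ≠ 0) (hcomp : IsCompact {y : Eu d | p y ≤ 1})
    (lam : ℝ) (hlam : 1 ≤ lam) (q C : ℝ) (hq : 2 ≤ q) (hC : 1 ≤ C)
    (hcot : ∀ (m : ℕ) (x : Fin m → Eu d), (∑ i, p (x i) ^ q) ^ (1 / q)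
      ≤ C * √((∑ δ : Fin m → Bool, p (∑ i, sg (δ i) • x i) ^ 2) / 2 ^ m))
    (hD : (2 * 10 ^ 10 * C * lam ^ 3 * Real.log (d + 1) ^ 5) ^ (4 * q) ≤ d) : Good p lam := by
  by_contra hnot
  have hd' : (2 : ℝ) ≤ d := by exact_mod_cast hd
  have hL1 : 1 ≤ Real.log ((d : ℝ) + 1) := by
    rw [Real.le_log_iff_exp_le (by positivity)]
    have := Real.exp_one_lt_d9
    linarith
  set ℓ := Real.log ((d : ℝ) + 1) with hℓ
  have hℓ0 : 0 < ℓ := by linarith
  have hlam0 : 0 < lam := by linarith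
  have hC0 : 0 < C := by linarith
  have hq0 : 0 < q := by linarith
  set X : ℝ := 88 * 14 * 10 ^ 5 * C * lam ^ 2 * ℓ ^ 4 with hX
  have hX0 : 0 < X := by positivity
  have hX1 : 1 ≤ X := by
    have h1 : 1 ≤ C * lam ^ 2 * ℓ ^ 4 := by
      have a1 : 1 ≤ lam ^ 2 := one_le_pow₀ hlam
      have a2 : 1 ≤ ℓ ^ 4 := one_le_pow₀ hL1
      calc (1 : ℝ) = 1 * 1 * 1 := by norm_num
        _ ≤ _ := by gcongr
    rw [hX]
    nlinarith
  set n : ℕ := ⌊X ^ q⌋₊ + 1 with hn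
  have hXn : X ^ q < n := by
    rw [hn]
    push_cast
    exact Nat.lt_floor_add_one _
  have hXq : 1 ≤ X ^ q := Real.one_le_rpow hX1 hq0.le
  have hn2 : (n : ℝ) ≤ 2 * X ^ q := by
    have h1 : (n : ℝ) ≤ X ^ q + 1 := by
      rw [hn]
      push_cast
      gcongr
      exact Nat.floor_le (by positivity)
    linarith
  have hcond : 4 * 10 ^ 14 * (n : ℝ) ^ 4 * lam ^ 4 * ℓ ^ 6 ≤ d := by
    refine le_trans ?_ hD
    have h1 : (n : ℝ) ^ 4 ≤ 16 * X ^ (4 * q) := by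
      calc (n : ℝ) ^ 4 ≤ (2 * X ^ q) ^ 4 := by gcongr
        _ = 16 * (X ^ q) ^ 4 := by ring
        _ = 16 * X ^ (4 * q) := by
            rw [← Real.rpow_natCast (X ^ q) 4, ← Real.rpow_mul hX0.le]
            congr 2
            push_cast
            ring
    have h2 : 64 * 10 ^ 14 * lam ^ 4 * ℓ ^ 6 ≤ (100 * lam * ℓ) ^ (4 * q) := by
      have a1 : 1 ≤ lam ^ 4 := one_le_pow₀ hlam
      have a2 : 1 ≤ ℓ ^ 2 := one_le_pow₀ hL1
      calc 64 * 10 ^ 14 * lam ^ 4 * ℓ ^ 6 ≤ 10 ^ 16 * (lam ^ 4 * lam ^ 4) * (ℓ ^ 6 * ℓ ^ 2) := by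
            have b1 : lam ^ 4 ≤ lam ^ 4 * lam ^ 4 := le_mul_of_one_le_right (by positivity) a1
            have b2 : ℓ ^ 6 ≤ ℓ ^ 6 * ℓ ^ 2 := le_mul_of_one_le_right (by positivity) a2
            gcongr
            norm_num
        _ = (100 * lam * ℓ) ^ 8 := by ring
        _ = (100 * lam * ℓ) ^ (8 : ℝ) := by norm_cast
        _ ≤ (100 * lam * ℓ) ^ (4 * q) := by
            apply Real.rpow_le_rpow_of_exponent_le _ (by linarith)
            have : 1 ≤ lam * ℓ := by nlinarith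
            nlinarith
    calc 4 * 10 ^ 14 * (n : ℝ) ^ 4 * lam ^ 4 * ℓ ^ 6
        ≤ 4 * 10 ^ 14 * (16 * X ^ (4 * q)) * lam ^ 4 * ℓ ^ 6 := by gcongr
      _ = (64 * 10 ^ 14 * lam ^ 4 * ℓ ^ 6) * X ^ (4 * q) := by ring
      _ ≤ (100 * lam * ℓ) ^ (4 * q) * X ^ (4 * q) := by gcongr
      _ = (100 * lam * ℓ * X) ^ (4 * q) := (Real.mul_rpow (by positivity) hX0.le).symm
      _ ≤ (2 * 10 ^ 10 * C * lam ^ 3 * ℓ ^ 5) ^ (4 * q) := by
          apply Real.rpow_le_rpow (by positivity) _ (by positivity)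
          rw [hX]
          have : 0 < C * lam ^ 3 * ℓ ^ 5 := by positivity
          nlinarith
  obtain ⟨x, φ, h1, h2, -, h4⟩ := main_gen hd p hcont h0 hcomp lam hlam hnot n (by omega) hcond
  have h5 := hcot n x
  have h6 : √((∑ δ : Fin n → Bool, p (∑ i, sg (δ i) • x i) ^ 2) / 2 ^ n) ≤ 88 * ℓ := by
    rw [Real.sqrt_le_iff]
    refine ⟨by positivity, ?_⟩
    rw [div_le_iff₀ (by positivity)]
    linarith
  set τ : ℝ := 1 / (14 * 10 ^ 5 * lam ^ 2 * ℓ ^ 3) with hτ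
  have hτ0 : 0 < τ := by positivity
  have h7 : (n : ℝ) ^ (1 / q) * τ ≤ (∑ i, p (x i) ^ q) ^ (1 / q) := by
    have h8 : (n : ℝ) * τ ^ q ≤ ∑ i, p (x i) ^ q := by
      calc (n : ℝ) * τ ^ q = ∑ _i : Fin n, τ ^ q := by simp
        _ ≤ ∑ i, p (x i) ^ q := by
            refine Finset.sum_le_sum fun i _ => ?_
            refine Real.rpow_le_rpow hτ0.le ?_ hq0.le
            exact (h2 i).trans ((le_abs_self _).trans (h1 i _))
    calc (n : ℝ) ^ (1 / q) * τ = ((n : ℝ) * τ ^ q) ^ (1 / q) := by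
          rw [Real.mul_rpow (Nat.cast_nonneg n) (by positivity), ← Real.rpow_mul hτ0.le,
            mul_one_div_cancel hq0.ne', Real.rpow_one]
      _ ≤ _ := Real.rpow_le_rpow (by positivity) h8 (by positivity)
  have h8 : (n : ℝ) ^ (1 / q) * τ ≤ C * (88 * ℓ) :=
    (h7.trans h5).trans (by gcongr)
  have h9 : X < (n : ℝ) ^ (1 / q) := by
    calc X = (X ^ q) ^ (1 / q) := by
          rw [← Real.rpow_mul hX0.le, mul_one_div_cancel hq0.ne', Real.rpow_one]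
      _ < (n : ℝ) ^ (1 / q) := Real.rpow_lt_rpow (by positivity) hXn (by positivity)
  have h10 : X * τ = C * (88 * ℓ) := by
    rw [hX, hτ]
    field_simp
  have h11 : X * τ < (n : ℝ) ^ (1 / q) * τ := by gcongr
  linarith

end Pool.Agent.J4H21.CO
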