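import Mathlib

set_option autoImplicit false

/-!
A version of the Sauer-Shelah lemma for sets of vectors with integer coordinates, with a gap.
-/

namespace Pool.Agent.J4H21.CO

open Finset

/-- `S` realizes all the patterns on `k` coordinates: at most `a i`, or at least `a i + 2`. -/
def Shat {d : ℕ} (S : Finset (Fin d → ℕ)) (k : ℕ) : Prop :=
  ∃ (σ : Fin k → Fin d) (a : Fin k → ℕ), ∀ δ : Fin k → Bool, ∃ s ∈ S, ∀ i,
    (δ i = true → a i + 2 ≤ s (σ i)) ∧ (δ i = false → s (σ i) ≤ a i)

/-- the bound -/
noncomputable def fb (M : ℝ) (d : ℕ) : ℕ → ℝ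
  | 0 => 0
  | k + 1 => 4 ^ d * (M / 2) ^ k

theorem fb_rec (M : ℝ) (hM : 2 ≤ M) (d k : ℕ) :
    2 * fb M d (k + 1) + M * fb M d k ≤ fb M (d + 1) (k + 1) := by
  cases k with
  | zero =>
    simp only [fb, pow_zero, mul_one, mul_zero, add_zero]
    rw [pow_succ]
    have : (0 : ℝ) < 4 ^ d := by positivity
    linarith
  | succ k =>
    simp only [fb]
    have h1 : M * (4 ^ d * (M / 2) ^ k) = 2 * (4 ^ d * (M / 2) ^ (k + 1)) := by
      rw [pow_succ]
      ring
    rw [h1, pow_succ (4 : ℝ) d]
    linarith

theorem fiber_count (F : Finset ℕ) (hF : F.Nonempty) (M : ℕ) (hM : ∀ x ∈ F, x < M) :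
    F.card ≤ 2 + ((range M).filter fun a => (∃ x ∈ F, x ≤ a) ∧ ∃ x ∈ F, a + 2 ≤ x).card := by
  set x := F.min' hF with hx
  set y := F.max' hF with hy
  have h1 : F ⊆ Icc x y := fun z hz => mem_Icc.2 ⟨F.min'_le z hz, F.le_max' z hz⟩
  have h2 := card_le_card h1
  rw [Nat.card_Icc] at h2
  by_cases h : x + 2 ≤ y
  · have h3 : Icc x (y - 2) ⊆ (range M).filter fun a => (∃ x ∈ F, x ≤ a) ∧ ∃ x ∈ F, a + 2 ≤ x := by
      intro a ha
      rw [mem_Icc] at ha
      rw [mem_filter, mem_range]
      have hyM := hM y (F.max'_mem hF)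
      exact ⟨by omega, ⟨x, F.min'_mem hF, ha.1⟩, ⟨y, F.max'_mem hF, by omega⟩⟩
    have h4 := card_le_card h3
    rw [Nat.card_Icc] at h4
    omega
  · omega

theorem gap_shatter (M : ℕ) (hM : 2 ≤ M) (d : ℕ) : ∀ (k : ℕ) (S : Finset (Fin d → ℕ)),
    (∀ s ∈ S, ∀ i, s i < M) → ¬ Shat S k → (S.card : ℝ) ≤ fb M d k := by
  classical
  induction d with
  | zero =>
    intro k S _ hS
    cases k with
    | zero =>
      have h1 : S = ∅ := by
        by_contra hne
        obtain ⟨s, hs⟩ := nonempty_iff_ne_empty.2 hne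
        exact hS ⟨Fin.elim0, Fin.elim0, fun δ => ⟨s, hs, fun i => i.elim0⟩⟩
      rw [h1]
      simp [fb]
    | succ k =>
      have h1 : S.card ≤ 1 := by
        rw [card_le_one]
        intro a _ b _
        exact Subsingleton.elim a b
      have h2 : (1 : ℝ) ≤ (M : ℝ) / 2 := by
        have : (2 : ℝ) ≤ M := by exact_mod_cast hM
        linarith
      calc (S.card : ℝ) ≤ 1 := by exact_mod_cast h1
        _ ≤ ((M : ℝ) / 2) ^ k := one_le_pow₀ h2
        _ = fb M 0 (k + 1) := by simp [fb]
  | succ d ih =>
    intro k S hSM hS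
    cases k with
    | zero =>
      have h1 : S = ∅ := by
        by_contra hne
        obtain ⟨s, hs⟩ := nonempty_iff_ne_empty.2 hne
        exact hS ⟨Fin.elim0, Fin.elim0, fun δ => ⟨s, hs, fun i => i.elim0⟩⟩
      rw [h1]
      simp [fb]
    | succ k =>
      set T : Finset (Fin d → ℕ) := S.image Fin.tail with hT
      set Ta : ℕ → Finset (Fin d → ℕ) := fun a => T.filter fun t =>
        (∃ s ∈ S, Fin.tail s = t ∧ s 0 ≤ a) ∧ ∃ s ∈ S, Fin.tail s = t ∧ a + 2 ≤ s 0 with hTa
      have hTM : ∀ t ∈ T, ∀ i, t i < M := by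
        intro t ht i
        rw [hT, mem_image] at ht
        obtain ⟨s, hs, rfl⟩ := ht
        exact hSM s hs i.succ
      -- no patterns in `T`
      have h1 : ¬ Shat T (k + 1) := by
        rintro ⟨σ, a, h⟩
        refine hS ⟨fun i => (σ i).succ, a, fun δ => ?_⟩
        obtain ⟨t, ht, hti⟩ := h δ
        rw [hT, mem_image] at ht
        obtain ⟨s, hs, rfl⟩ := ht
        exact ⟨s, hs, hti⟩
      have h2 : ∀ a, ¬ Shat (Ta a) k := by
        rintro a ⟨σ, b, h⟩
        refine hS ⟨Fin.cons 0 fun i => (σ i).succ, Fin.cons a b, fun δ => ?_⟩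
        obtain ⟨t, ht, hti⟩ := h (Fin.tail δ)
        rw [hTa, mem_filter] at ht
        obtain ⟨-, ⟨s1, hs1, hs1t, hs1a⟩, ⟨s2, hs2, hs2t, hs2a⟩⟩ := ht
        cases hδ : δ 0 with
        | true =>
          refine ⟨s2, hs2, fun i => ?_⟩
          refine Fin.cases ?_ (fun i => ?_) i
          · refine ⟨fun _ => by simpa using hs2a, fun h' => ?_⟩
            rw [hδ] at h'
            exact absurd h' (by decide)
          · have := hti i
            rw [← hs2t] at this
            simpa [Fin.tail] using this
        | false =>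
          refine ⟨s1, hs1, fun i => ?_⟩
          refine Fin.cases ?_ (fun i => ?_) i
          · refine ⟨fun h' => ?_, fun _ => by simpa using hs1a⟩
            rw [hδ] at h'
            exact absurd h' (by decide)
          · have := hti i
            rw [← hs1t] at this
            simpa [Fin.tail] using this
      have h3 := ih (k + 1) T hTM h1
      have h4 : ∀ a, ((Ta a).card : ℝ) ≤ fb M d k := fun a =>
        ih k (Ta a) (fun t ht i => hTM t (mem_filter.1 ht).1 i) (h2 a)
      -- counting
      have h5 : S.card ≤ 2 * T.card + ∑ a ∈ range M, (Ta a).card := by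
        have e1 : S.card = ∑ t ∈ T, (S.filter fun s => Fin.tail s = t).card :=
          card_eq_sum_card_image Fin.tail S
        have e2 : ∀ t ∈ T, (S.filter fun s => Fin.tail s = t).card
            ≤ 2 + ((range M).filter fun a => t ∈ Ta a).card := by
          intro t ht
          set F : Finset ℕ := (S.filter fun s => Fin.tail s = t).image fun s => s 0 with hF
          have e3 : F.card = (S.filter fun s => Fin.tail s = t).card := by
            apply card_image_of_injOn
            intro s hs s' hs' h
            simp only [coe_filter, Set.mem_ofPred_eq] at hs hs'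
            rw [← Fin.cons_self_tail s, ← Fin.cons_self_tail s', hs.2, hs'.2]
            congr 1
          have hFne : F.Nonempty := by
            rw [hT, mem_image] at ht
            obtain ⟨s, hs, hst⟩ := ht
            exact ⟨s 0, mem_image.2 ⟨s, mem_filter.2 ⟨hs, hst⟩, rfl⟩⟩
          have hFM : ∀ x ∈ F, x < M := by
            intro x hx
            rw [hF, mem_image] at hx
            obtain ⟨s, hs, rfl⟩ := hx
            exact hSM s (mem_filter.1 hs).1 0
          have e4 := fiber_count F hFne M hFM
          rw [← e3]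
          refine e4.trans ?_
          refine Nat.add_le_add_left (card_le_card fun a ha => ?_) 2
          rw [mem_filter] at ha ⊢
          refine ⟨ha.1, ?_⟩
          obtain ⟨⟨x, hx, hxa⟩, ⟨y, hy, hya⟩⟩ := ha.2
          rw [hF, mem_image] at hx hy
          obtain ⟨s, hs, rfl⟩ := hx
          obtain ⟨s', hs', rfl⟩ := hy
          rw [mem_filter] at hs hs'
          rw [hTa, mem_filter]
          exact ⟨ht, ⟨s, hs.1, hs.2, hxa⟩, ⟨s', hs'.1, hs'.2, hya⟩⟩
        rw [e1]
        refine (sum_le_sum e2).trans ?_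
        rw [sum_add_distrib]
        simp only [sum_const, smul_eq_mul]
        rw [mul_comm T.card 2]
        gcongr
        simp only [card_filter]
        rw [sum_comm]
        refine sum_le_sum fun a _ => ?_
        rw [← card_filter]
        refine card_le_card fun t ht => ?_
        exact (mem_filter.1 ht).2
      calc (S.card : ℝ) ≤ 2 * (T.card : ℝ) + ∑ a ∈ range M, ((Ta a).card : ℝ) := by
            exact_mod_cast h5
        _ ≤ 2 * fb M d (k + 1) + ∑ _a ∈ range M, fb M d k := by
            gcongr with a _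
            exact h4 a
        _ = 2 * fb M d (k + 1) + M * fb M d k := by simp
        _ ≤ _ := fb_rec M (by exact_mod_cast hM) d k

end Pool.Agent.J4H21.CO
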