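import Mathlib
import Pool.Agent.J4H21.CO.Final
import Pool.Agent.N555.RZ.KC

set_option autoImplicit false

/-!
From cube-like images to vectors with small signed sums (Pisier's bound for the Rademacher
projection).
-/

namespace Pool.Agent.J4H21.CO

open MeasureTheory Set Module
open scoped ENNReal NNReal
open Pool.Agent.H815R2.Flat Pool.Agent.J4H21.FL Pool.Agent.J4H21.SC
open Pool.Agent.N555.RZ (sg sg_sq hat wal rad)

variable {d : ℕ}

theorem vectors_of_cubic (hd : 100 ≤ d) (p : Seminorm ℝ (Eu d)) (hcont : Continuous p)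
    (h0 : volume {y : Eu d | p y ≤ 1} ≠ 0) (hcomp : IsCompact {y : Eu d | p y ≤ 1})
    (n : ℕ) (κ : ℝ) (hκ : 0 ≤ κ) (T : Eu d →L[ℝ] Eu n)
    (hT1 : ∀ y : Eu n, (∀ i, |y i| ≤ κ) → y ∈ T '' {y : Eu d | p y ≤ 1})
    (hT2 : ∀ x, p x ≤ 1 → ∀ i, |T x i| ≤ 1) :
    ∃ x : Fin n → Eu d, (∀ i, κ ≤ p (x i)) ∧
      ∑ δ : Fin n → Bool, p (∑ i, sg (δ i) • x i) ^ 2 ≤ 2 ^ n * (13 * Real.log (d + 1)) ^ 2 := by
  classical
  have hfin := (hcomp.measure_lt_top (μ := (volume : Measure (Eu d)))).ne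
  obtain ⟨S, hS⟩ := exists_iso p hcont h0 hcomp
  obtain ⟨c, hc0, hct, hc'⟩ := change p hcont S
  have hvol := change_vol p S c hc'
  have h0' : volume {y : Eu d | tr p S y ≤ 1} ≠ 0 := fun h => h0 (by rw [hvol, h, mul_zero])
  have hfin' : volume {y : Eu d | tr p S y ≤ 1} ≠ ⊤ := fun h => hfin (by
    rw [hvol, h, ENNReal.mul_top hc0])
  have hcont' : Continuous (tr p S) := hcont.comp S.symm.continuous
  have htr : ∀ x, tr p S (S x) = p x := fun x => by
    rw [tr_apply, ContinuousLinearEquiv.symm_apply_apply]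
  -- comparison with the Euclidean norm
  have hL1 : ∀ x, p x ≤ 1 * ‖(S : Eu d →ₗ[ℝ] Eu d) x‖ := by
    intro x
    rw [one_mul, ← htr x]
    exact iso_upper (tr p S) hcont' h0' hfin' hS (S x)
  have hL2 : ∀ x, ‖(S : Eu d →ₗ[ℝ] Eu d) x‖ ≤ 8 * (d + 2) * p x := by
    intro x
    refine le_of_forall_pos_le_add fun ε hε => ?_
    set r : ℝ := p x + ε / (8 * (d + 2)) with hr
    have hr0 : 0 < r := by
      have := apply_nonneg p x
      positivity
    have h1 := iso_radius (tr p S) hcont' h0' hfin' hS (r⁻¹ • S x) (by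
      rw [map_smul_eq_mul, htr, Real.norm_of_nonneg (by positivity), inv_mul_le_iff₀ hr0, mul_one]
      have : 0 < ε / (8 * ((d : ℝ) + 2)) := by positivity
      linarith)
    rw [norm_smul, norm_inv, Real.norm_of_nonneg hr0.le, inv_mul_le_iff₀ hr0] at h1
    calc ‖(S : Eu d →ₗ[ℝ] Eu d) x‖ ≤ r * (8 * (d + 2)) := h1
      _ = 8 * (d + 2) * p x + ε := by
          rw [hr]
          field_simp
  -- the degree
  have hd' : (100 : ℝ) ≤ d := by exact_mod_cast hd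
  have hlog2 := Real.log_two_gt_d9
  set ℓ := Real.log ((d : ℝ) + 1) with hℓ
  have hℓ3 : 3 ≤ ℓ := by
    rw [hℓ, Real.le_log_iff_exp_le (by positivity)]
    have h1 : Real.exp 3 = Real.exp 1 ^ 3 := by rw [← Real.exp_nat_mul]; norm_num
    have h2 := Real.exp_one_lt_d9
    rw [h1]
    calc Real.exp 1 ^ 3 ≤ 2.7182818286 ^ 3 := by gcongr
      _ ≤ 100 := by norm_num
      _ ≤ d + 1 := by linarith
  set y : ℝ := Real.log (8 * (d + 2)) / Real.log 2 with hy
  have hy0 : 0 < y := by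
    apply div_pos (Real.log_pos (by linarith)) (by linarith)
  have hy1 : y ≤ 4 + 1.4428 * ℓ := by
    rw [hy, div_le_iff₀ (by linarith)]
    have h1 : Real.log (8 * ((d : ℝ) + 2)) ≤ Real.log (16 * (d + 1)) :=
      Real.log_le_log (by positivity) (by linarith)
    have h2 : Real.log (16 * ((d : ℝ) + 1)) = 4 * Real.log 2 + ℓ := by
      rw [Real.log_mul (by norm_num) (by positivity), hℓ,
        show (16 : ℝ) = 2 ^ 4 by norm_num, Real.log_pow]
      norm_num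
    rw [h2] at h1
    nlinarith
  have hN2 : (1 : ℝ) * (8 * (d + 2)) ≤ 2 ^ ⌈y⌉₊ := by
    calc (1 : ℝ) * (8 * (d + 2)) = Real.exp (Real.log (8 * (d + 2))) := by
          rw [Real.exp_log (by positivity), one_mul]
      _ = Real.exp (Real.log 2 * y) := by
          rw [hy]
          congr 1
          field_simp
      _ = (2 : ℝ) ^ y := by rw [Real.rpow_def_of_pos (by norm_num)]
      _ ≤ (2 : ℝ) ^ ((⌈y⌉₊ : ℕ) : ℝ) :=
          Real.rpow_le_rpow_of_exponent_le (by norm_num) (Nat.le_ceil y)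
      _ = 2 ^ ⌈y⌉₊ := by rw [Real.rpow_natCast]
  have hN3 : 4 * (⌈y⌉₊ : ℝ) ≤ 13 * ℓ := by
    have h1 : (⌈y⌉₊ : ℝ) < y + 1 := Nat.ceil_lt_add_one hy0.le
    linarith
  -- the points
  have hz : ∀ δ : Fin n → Bool, ∃ z, p z ≤ 1 ∧ ∀ i, T z i = κ * sg (δ i) := by
    intro δ
    obtain ⟨z, hz, hzT⟩ := hT1 (WithLp.toLp 2 fun i => κ * sg (δ i)) (fun i => by
      show |κ * sg (δ i)| ≤ κ
      rw [abs_mul, Pool.Agent.N555.RZ.sg_abs, mul_one, abs_of_nonneg hκ])
    exact ⟨z, hz, fun i => by rw [hzT]⟩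
  choose z hz1 hz2 using hz
  have hrad := rad p (S : Eu d →ₗ[ℝ] Eu d) 1 (8 * (d + 2)) zero_le_one (by positivity) hL1 hL2
    ⌈y⌉₊ (Nat.one_le_ceil_iff.mpr hy0) hN2 z hz1
  refine ⟨fun i => hat z {i}, fun i => ?_, ?_⟩
  · have h1 : T (hat z {i}) i = κ := by
      unfold hat
      rw [map_smul, map_sum]
      have h2 : ((∑ δ : Fin n → Bool, T (wal {i} δ • z δ)) : Eu n) i
          = ∑ δ : Fin n → Bool, (T (wal {i} δ • z δ)) i := by
        rw [WithLp.ofLp_sum, Finset.sum_apply]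
      show ((2 : ℝ) ^ n)⁻¹ * ((∑ δ : Fin n → Bool, T (wal {i} δ • z δ)) : Eu n) i = κ
      rw [h2]
      have h3 : ∀ δ : Fin n → Bool, (T (wal {i} δ • z δ)) i = κ := by
        intro δ
        rw [map_smul]
        show wal {i} δ * (T (z δ)) i = κ
        rw [hz2]
        simp only [wal, Finset.prod_singleton]
        have := sg_sq (δ i)
        linear_combination κ * this
      simp only [h3]
      rw [Finset.sum_const, Finset.card_univ, nsmul_eq_mul]
      simp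
    -- from the bound on `K`
    refine le_of_forall_pos_le_add fun ε hε => ?_
    set r : ℝ := p (hat z {i}) + ε with hr
    have hr0 : 0 < r := by
      have := apply_nonneg p (hat z {i})
      positivity
    have h2 := hT2 (r⁻¹ • hat z {i}) (by
      rw [map_smul_eq_mul, Real.norm_of_nonneg (by positivity), inv_mul_le_iff₀ hr0, mul_one]
      linarith) i
    rw [map_smul] at h2
    have h3 : |r⁻¹ * (T (hat z {i})) i| ≤ 1 := h2
    rw [h1, abs_of_nonneg (by positivity), inv_mul_le_iff₀ hr0, mul_one] at h3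
    exact h3
  · calc ∑ δ : Fin n → Bool, p (∑ i, sg (δ i) • hat z {i}) ^ 2
        ≤ 2 ^ n * (4 * (⌈y⌉₊ : ℝ)) ^ 2 := hrad
      _ ≤ _ := by gcongr

/-- cotype and cube-like images -/
theorem cotype_cubic (hd : 100 ≤ d) (p : Seminorm ℝ (Eu d)) (hcont : Continuous p)
    (h0 : volume {y : Eu d | p y ≤ 1} ≠ 0) (hcomp : IsCompact {y : Eu d | p y ≤ 1})
    (n : ℕ) (κ : ℝ) (hκ : 0 ≤ κ) (T : Eu d →L[ℝ] Eu n)
    (hT1 : ∀ y : Eu n, (∀ i, |y i| ≤ κ) → y ∈ T '' {y : Eu d | p y ≤ 1})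
    (hT2 : ∀ x, p x ≤ 1 → ∀ i, |T x i| ≤ 1) (q C : ℝ) (hq : 0 < q) (hC : 0 ≤ C)
    (hcot : ∀ (m : ℕ) (x : Fin m → Eu d), (∑ i, p (x i) ^ q) ^ (1 / q)
      ≤ C * √((∑ δ : Fin m → Bool, p (∑ i, sg (δ i) • x i) ^ 2) / 2 ^ m)) :
    (n : ℝ) ^ (1 / q) * κ ≤ C * (13 * Real.log (d + 1)) := by
  obtain ⟨x, h1, h2⟩ := vectors_of_cubic hd p hcont h0 hcomp n κ hκ T hT1 hT2
  have hℓ0 : 0 ≤ Real.log ((d : ℝ) + 1) := Real.log_nonneg (by
    have : (0 : ℝ) ≤ d := Nat.cast_nonneg d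
    linarith)
  have h3 : √((∑ δ : Fin n → Bool, p (∑ i, sg (δ i) • x i) ^ 2) / 2 ^ n)
      ≤ 13 * Real.log (d + 1) := by
    rw [Real.sqrt_le_iff]
    refine ⟨by positivity, ?_⟩
    rw [div_le_iff₀ (by positivity)]
    linarith
  have h4 : (n : ℝ) ^ (1 / q) * κ ≤ (∑ i, p (x i) ^ q) ^ (1 / q) := by
    have h8 : (n : ℝ) * κ ^ q ≤ ∑ i, p (x i) ^ q := by
      calc (n : ℝ) * κ ^ q = ∑ _i : Fin n, κ ^ q := by simp
        _ ≤ ∑ i, p (x i) ^ q :=
            Finset.sum_le_sum fun i _ => Real.rpow_le_rpow hκ (h1 i) hq.le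
    calc (n : ℝ) ^ (1 / q) * κ = ((n : ℝ) * κ ^ q) ^ (1 / q) := by
          rw [Real.mul_rpow (Nat.cast_nonneg n) (by positivity), ← Real.rpow_mul hκ,
            mul_one_div_cancel hq.ne', Real.rpow_one]
      _ ≤ _ := Real.rpow_le_rpow (by positivity) h8 (by positivity)
  exact (h4.trans (hcot n x)).trans (by gcongr)

end Pool.Agent.J4H21.CO
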