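import Mathlib
import Pool.Agent.J4H21.CO.Gap
import Pool.Agent.J4H21.CO.Final

set_option autoImplicit false

/-!
A body which fills a good part of a parallelotope has a cube-like linear image of almost full
dimension.
-/

namespace Pool.Agent.J4H21.CO

open MeasureTheory Set Module
open scoped ENNReal NNReal
open Pool.Agent.H815R2.Flat Pool.Agent.J4H21.FL Pool.Agent.J4H21.SC
open Pool.Agent.N555.RZ (sg)

variable {d : ℕ}

theorem box_vol (a b : Fin d → ℝ) :
    volume {c : Eu d | ∀ i, a i ≤ c i ∧ c i ≤ b i} = ∏ i, ENNReal.ofReal (b i - a i) := by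
  have h1 := (EuclideanSpace.volume_preserving_symm_measurableEquiv_toLp (Fin d)).measure_preimage
    (s := Icc a b) measurableSet_Icc.nullMeasurableSet
  rw [Real.volume_Icc_pi] at h1
  rw [← h1]
  congr 1
  ext c
  simp only [mem_preimage, mem_Icc, Pi.le_def]
  constructor
  · intro h
    exact ⟨fun i => (h i).1, fun i => (h i).2⟩
  · intro h i
    exact ⟨h.1 i, h.2 i⟩

/-- the volume and the number of cells -/
theorem cells (hd : 0 < d) (A : Set (Eu d)) (M : ℕ) (hM : 1 ≤ M) (S : Finset (Fin d → ℕ))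
    (hA : ∀ y ∈ A, ∀ i, |y i| ≤ 1)
    (hS : ∀ y ∈ A, (fun i => ⌊(y i + 1) * M / 2⌋₊) ∈ S) :
    volume A ≤ (S.card : ℝ≥0∞) * ENNReal.ofReal ((2 / M) ^ d) := by
  have hM' : (0 : ℝ) < M := by exact_mod_cast hM
  have h1 : A ⊆ ⋃ s ∈ S, {c : Eu d | ∀ i, (s i : ℝ) * (2 / M) - 1 ≤ c i ∧
      c i ≤ ((s i : ℝ) + 1) * (2 / M) - 1} := by
    intro y hy
    simp only [mem_iUnion]
    refine ⟨_, hS y hy, fun i => ?_⟩
    have h2 := abs_le.1 (hA y hy i)
    have h3 : 0 ≤ (y i + 1) * M / 2 := by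
      have : 0 ≤ y i + 1 := by linarith
      positivity
    have h4 := Nat.floor_le h3
    have h5 := Nat.lt_floor_add_one ((y i + 1) * M / 2)
    set k : ℝ := (⌊(y i + 1) * M / 2⌋₊ : ℝ) with hk
    have e1 : y i + 1 = ((y i + 1) * M / 2) * (2 / M) := by field_simp
    constructor
    · have : k * (2 / M) ≤ ((y i + 1) * M / 2) * (2 / M) := by gcongr
      linarith
    · have : ((y i + 1) * M / 2) * (2 / M) ≤ (k + 1) * (2 / M) := by gcongr
      linarith
  calc volume A ≤ volume (⋃ s ∈ S, {c : Eu d | ∀ i, (s i : ℝ) * (2 / M) - 1 ≤ c i ∧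
        c i ≤ ((s i : ℝ) + 1) * (2 / M) - 1}) := measure_mono h1
    _ ≤ ∑ s ∈ S, volume {c : Eu d | ∀ i, (s i : ℝ) * (2 / M) - 1 ≤ c i ∧
        c i ≤ ((s i : ℝ) + 1) * (2 / M) - 1} := measure_biUnion_finset_le _ _
    _ = ∑ s ∈ S, ENNReal.ofReal ((2 / M) ^ d) := by
        refine Finset.sum_congr rfl fun s _ => ?_
        rw [box_vol]
        have e2 : ∀ i : Fin d, ENNReal.ofReal (((s i : ℝ) + 1) * (2 / M) - 1 -
            ((s i : ℝ) * (2 / M) - 1)) = ENNReal.ofReal (2 / M) := by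
          intro i
          congr 1
          ring
        simp only [e2]
        rw [Finset.prod_const, Finset.card_univ, Fintype.card_fin,
          ENNReal.ofReal_pow (by positivity)]
    _ = _ := by rw [Finset.sum_const, nsmul_eq_mul]

theorem cubic_vol (hd : 0 < d) (p : Seminorm ℝ (Eu d))
    (hcomp : IsCompact {y : Eu d | p y ≤ 1}) (U : Eu d ≃L[ℝ] Eu d)
    (hU : ∀ y i, |U y i| ≤ p y) (R : ℝ) (hR : 1 ≤ R)
    (hV : volume {y : Eu d | ∀ i, |U y i| ≤ 1}
      ≤ ENNReal.ofReal (R ^ d) * volume {y : Eu d | p y ≤ 1})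
    (n : ℕ) (hn1 : 1 ≤ n) (hn : (5 * R) ^ n ≤ 2 ^ d) :
    ∃ T : Eu d →L[ℝ] Eu n,
      (∀ y : Eu n, (∀ i, |y i| ≤ 1 / (9 * R)) → y ∈ T '' {y : Eu d | p y ≤ 1}) ∧
      ∀ x, p x ≤ 1 → ∀ i, |T x i| ≤ 1 := by
  classical
  have hR0 : 0 < R := by linarith
  have hdet : LinearMap.det (U : Eu d →ₗ[ℝ] Eu d) ≠ 0 :=
    (LinearEquiv.isUnit_det' U.toLinearEquiv).ne_zero
  set A : Set (Eu d) := {y : Eu d | p (U.symm y) ≤ 1} with hA
  have hKA : {y : Eu d | p y ≤ 1} = (U : Eu d →ₗ[ℝ] Eu d) ⁻¹' A := by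
    ext y
    show p y ≤ 1 ↔ p (U.symm (U y)) ≤ 1
    rw [U.symm_apply_apply]
  have hQA : {y : Eu d | ∀ i, |U y i| ≤ 1}
      = (U : Eu d →ₗ[ℝ] Eu d) ⁻¹' {c : Eu d | ∀ i, |c i| ≤ 1} := rfl
  have hvol : ENNReal.ofReal (2 ^ d) ≤ ENNReal.ofReal (R ^ d) * volume A := by
    rw [hKA, hQA, Measure.addHaar_preimage_linearMap volume hdet,
      Measure.addHaar_preimage_linearMap volume hdet, cube_vol, mul_left_comm] at hV
    exact (ENNReal.mul_le_mul_iff_right (by
      rw [Ne, ENNReal.ofReal_eq_zero, not_le]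
      exact abs_pos.2 (inv_ne_zero hdet)) ENNReal.ofReal_ne_top).1 hV
  have hA1 : ∀ y ∈ A, ∀ i, |y i| ≤ 1 := by
    intro y hy i
    have := hU (U.symm y) i
    rw [U.apply_symm_apply] at this
    exact this.trans hy
  -- the grid
  set M : ℕ := ⌈8 * R⌉₊ with hM
  have hM8 : 8 * R ≤ M := Nat.le_ceil _
  have hM9 : (M : ℝ) < 8 * R + 1 := Nat.ceil_lt_add_one (by positivity)
  have hM0 : (0 : ℝ) < M := by linarith
  have hM1 : 1 ≤ M := by
    have : (0 : ℝ) < M := hM0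
    exact_mod_cast this
  set S : Finset (Fin d → ℕ) := (Fintype.piFinset fun _ => Finset.range (M + 1)).filter
    fun s => ∃ y ∈ A, (fun i => ⌊(y i + 1) * M / 2⌋₊) = s with hS
  have hSA : ∀ y ∈ A, (fun i => ⌊(y i + 1) * M / 2⌋₊) ∈ S := by
    intro y hy
    rw [hS, Finset.mem_filter, Fintype.mem_piFinset]
    refine ⟨fun i => ?_, y, hy, rfl⟩
    rw [Finset.mem_range, Nat.lt_add_one_iff]
    have h2 := abs_le.1 (hA1 y hy i)
    apply Nat.floor_le_of_le
    have h3 : y i + 1 ≤ 2 := by linarith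
    calc (y i + 1) * M / 2 ≤ 2 * M / 2 := by gcongr
      _ = M := by ring
  have hcells := cells hd A M hM1 S hA1 hSA
  have hcard : (8 : ℝ) ^ d ≤ S.card := by
    have h2 : ENNReal.ofReal (2 ^ d)
        ≤ ENNReal.ofReal (R ^ d * (S.card * (2 / M) ^ d)) := by
      refine hvol.trans ?_
      rw [ENNReal.ofReal_mul (by positivity), ENNReal.ofReal_mul (by positivity),
        ENNReal.ofReal_natCast]
      gcongr
    rw [ENNReal.ofReal_le_ofReal_iff (by positivity)] at h2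
    have h3 : R ^ d * (S.card * (2 / (M : ℝ)) ^ d) = S.card * (2 * R / M) ^ d := by
      rw [div_pow, div_pow, mul_pow]
      ring
    rw [h3] at h2
    have h4 : (2 * R / M) ^ d ≤ (1 / 4) ^ d := by
      apply pow_le_pow_left₀ (by positivity)
      rw [div_le_div_iff₀ hM0 (by norm_num)]
      linarith
    have h5 : (2 : ℝ) ^ d ≤ S.card * (1 / 4) ^ d := h2.trans (by gcongr)
    have h6 : (8 : ℝ) ^ d = 2 ^ d * 4 ^ d := by rw [← mul_pow]; norm_num
    rw [h6]
    calc (2 : ℝ) ^ d * 4 ^ d ≤ (S.card * (1 / 4) ^ d) * 4 ^ d := by gcongr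
      _ = S.card * ((1 / 4) * 4) ^ d := by rw [mul_pow]; ring
      _ = S.card := by norm_num
  have hshat : Shat S n := by
    by_contra hcon
    obtain ⟨k, rfl⟩ : ∃ k, n = k + 1 := ⟨n - 1, by omega⟩
    have h2 := gap_shatter (M + 1) (by omega) d (k + 1) S (by
      intro s hs i
      rw [hS, Finset.mem_filter, Fintype.mem_piFinset] at hs
      exact Finset.mem_range.1 (hs.1 i)) hcon
    simp only [fb] at h2
    push_cast at h2
    have h3 : ((M : ℝ) + 1) / 2 ≤ 5 * R := by linarith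
    have h4 : (8 : ℝ) ^ d ≤ 4 ^ d * (5 * R) ^ k := by
      refine hcard.trans (h2.trans ?_)
      gcongr
    have h5 : (8 : ℝ) ^ d = 4 ^ d * 2 ^ d := by rw [← mul_pow]; norm_num
    rw [h5] at h4
    have h6 : (2 : ℝ) ^ d ≤ (5 * R) ^ k := le_of_mul_le_mul_left h4 (by positivity)
    have h7 : (5 * R) ^ k < (5 * R) ^ (k + 1) := by
      rw [pow_succ]
      have : 0 < (5 * R) ^ k := by positivity
      nlinarith
    linarith
  obtain ⟨σ, a, hσ⟩ := hshat
  choose s hs hsi using hσ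
  have hy : ∀ δ, ∃ y ∈ A, (fun i => ⌊(y i + 1) * M / 2⌋₊) = s δ := by
    intro δ
    have := hs δ
    rw [hS, Finset.mem_filter] at this
    exact this.2
  choose y hyA hys using hy
  have hys' : ∀ δ i, ⌊(y δ i + 1) * M / 2⌋₊ = s δ i := fun δ i => congrFun (hys δ) i
  refine cube_of_signs n p hcomp _
    (fun i => (EuclideanSpace.proj (σ i)).comp (U : Eu d →L[ℝ] Eu d)) (fun i y => hU y (σ i))
    fun δ => ?_
  set δ' : Fin n → Bool := fun i => !(δ i) with hδ'
  refine ⟨(1 / 2 : ℝ) • (U.symm (y δ) - U.symm (y δ')), ?_, fun i => ?_⟩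
  · rw [map_smul_eq_mul, Real.norm_of_nonneg (by norm_num)]
    have h2 := map_sub_le_add p (U.symm (y δ)) (U.symm (y δ'))
    have h3 : p (U.symm (y δ)) ≤ 1 := hyA δ
    have h4 : p (U.symm (y δ')) ≤ 1 := hyA δ'
    linarith
  · have e1 : ((EuclideanSpace.proj (σ i)).comp (U : Eu d →L[ℝ] Eu d))
        ((1 / 2 : ℝ) • (U.symm (y δ) - U.symm (y δ'))) = (1 / 2) * (y δ (σ i) - y δ' (σ i)) := by
      rw [map_smul, map_sub, smul_eq_mul]
      show (1 / 2 : ℝ) * ((U (U.symm (y δ))) (σ i) - (U (U.symm (y δ'))) (σ i)) = _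
      rw [U.apply_symm_apply, U.apply_symm_apply]
    rw [e1]
    have hup : ∀ γ : Fin n → Bool, γ i = true → ((a i : ℝ) + 2) * (2 / M) - 1 ≤ y γ (σ i) := by
      intro γ hγ
      have h2 := (hsi γ i).1 hγ
      rw [← hys' γ (σ i)] at h2
      have h3 : 0 ≤ (y γ (σ i) + 1) * M / 2 := by
        have := (abs_le.1 (hA1 _ (hyA γ) (σ i))).1
        have : 0 ≤ y γ (σ i) + 1 := by linarith
        positivity
      have h4 := Nat.floor_le h3
      have h5 : (a i : ℝ) + 2 ≤ (y γ (σ i) + 1) * M / 2 := by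
        refine le_trans ?_ h4
        exact_mod_cast h2
      have h6 : ((a i : ℝ) + 2) * (2 / M) ≤ ((y γ (σ i) + 1) * M / 2) * (2 / M) := by gcongr
      have e2 : ((y γ (σ i) + 1) * M / 2) * (2 / M) = y γ (σ i) + 1 := by field_simp
      linarith
    have hlo : ∀ γ : Fin n → Bool, γ i = false → y γ (σ i) ≤ ((a i : ℝ) + 1) * (2 / M) - 1 := by
      intro γ hγ
      have h2 := (hsi γ i).2 hγ
      rw [← hys' γ (σ i)] at h2
      have h5 := Nat.lt_floor_add_one ((y γ (σ i) + 1) * M / 2)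
      have h6 : (y γ (σ i) + 1) * M / 2 ≤ (a i : ℝ) + 1 := by
        have : ((⌊(y γ (σ i) + 1) * M / 2⌋₊ : ℕ) : ℝ) ≤ a i := by exact_mod_cast h2
        linarith
      have h7 : ((y γ (σ i) + 1) * M / 2) * (2 / M) ≤ ((a i : ℝ) + 1) * (2 / M) := by gcongr
      have e2 : ((y γ (σ i) + 1) * M / 2) * (2 / M) = y γ (σ i) + 1 := by field_simp
      linarith
    have h9 : 1 / (9 * R) ≤ 1 / M := by
      apply one_div_le_one_div_of_le hM0
      linarith
    have e3 : ((a i : ℝ) + 2) * (2 / M) - ((a i : ℝ) + 1) * (2 / M) = 2 * (1 / M) := by ring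
    cases hδi : δ i with
    | true =>
      have h2 := hup δ hδi
      have h3 := hlo δ' (by rw [hδ']; simp [hδi])
      simp only [sg, if_true]
      linarith
    | false =>
      have h2 := hlo δ hδi
      have h3 := hup δ' (by rw [hδ']; simp [hδi])
      simp only [sg, Bool.false_eq_true, if_false]
      linarith

end Pool.Agent.J4H21.CO
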